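import Mathlib

set_option autoImplicit false

/-!
# Intersecting `r`-partite hypergraphs and their non-trivial vertex covers (MP_2c613a_co)
-/

namespace Pool.Agent.Lib.MP_2c613a_co

/-- An `r`-partite hypergraph: a finite vertex set partitioned into `r` sides by the map `side`, and
a finite set of edges, each containing exactly one vertex of each side; every vertex lies in at
least one edge. -/
structure RPartiteHypergraph (r : ℕ) where
  /-- vertices -/
  V : Type
  finite : Finite V
  /-- the side of a vertex -/
  side : V → Fin r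
  /-- edges -/
  edges : Finset (Finset V)
  edge_side : ∀ e ∈ edges, ∀ i, ∃! v, v ∈ e ∧ side v = i
  mem_edge : ∀ v, ∃ e ∈ edges, v ∈ e

namespace RPartiteHypergraph

variable {r : ℕ} (H : RPartiteHypergraph r)

/-- Any two edges share a vertex. -/
def Intersecting : Prop := ∀ e ∈ H.edges, ∀ e' ∈ H.edges, ∃ v, v ∈ e ∧ v ∈ e'

/-- A non-trivial vertex cover: a set of vertices meeting every edge that contains no edge and no
side as a subset. -/
def IsNontrivialCover (C : Finset H.V) : Prop :=
  (∀ e ∈ H.edges, ∃ v ∈ C, v ∈ e) ∧ (∀ e ∈ H.edges, ¬ e ⊆ C) ∧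
    ∀ i, ¬ {v | H.side v = i} ⊆ (C : Set H.V)

/-- The minimum size of a non-trivial vertex cover. -/
noncomputable def tauStar : ℕ := sInf {n | ∃ C, H.IsNontrivialCover C ∧ C.card = n}

end RPartiteHypergraph

open RPartiteHypergraph

/-- The supremum of `τ*(H)` over all intersecting `r`-partite hypergraphs `H` that have a
non-trivial vertex cover. -/
noncomputable def f (r : ℕ) : ℕ∞ :=
  ⨆ (H : RPartiteHypergraph r) (_ : H.Intersecting) (_ : ∃ C, H.IsNontrivialCover C),
    (H.tauStar : ℕ∞)

/-- The supremum of `τ*(H)` over all intersecting `r`-partite hypergraphs `H` that have a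
non-trivial vertex cover and all of whose sides contain at least two vertices. -/
noncomputable def f₂ (r : ℕ) : ℕ∞ :=
  ⨆ (H : RPartiteHypergraph r) (_ : H.Intersecting) (_ : ∃ C, H.IsNontrivialCover C)
    (_ : ∀ i, 2 ≤ {v | H.side v = i}.ncard), (H.tauStar : ℕ∞)

end Pool.Agent.Lib.MP_2c613a_co
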