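import Pool.Agent.Lib.MP_2c613a_co.Three

set_option autoImplicit false

/-!
# Lower bounds by exhaustive search
-/

namespace Pool.Agent.Lib.MP_2c613a_co

open Finset RPartiteHypergraph

/-! ### The search -/

/-- The loop over the elements of a list (given as powers of two): `forb` is the set of forbidden
elements. -/
def loop (ih : ℕ → ℕ → ℕ → Bool) (k chosen : ℕ) (bs : List ℕ) : ℕ → Bool :=
  @List.rec ℕ (fun _ => ℕ → Bool) (fun _ => true)
    (fun b _ ihb forb => cond (Nat.beq (Nat.land forb b) 0)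
      (and (ih k (Nat.lor chosen b) forb) (ihb (Nat.lor forb b))) (ihb forb)) bs

/-- Exhaustive search: `srch tr ps k chosen forb = true` certifies that every set containing
`chosen`, disjoint from `forb`, with at most `k` further elements, that meets every set of `ps`,
contains a set `chosen'` with `tr chosen' = true`. Sets of natural numbers are coded by masks, and
the sets in `ps` are given by a mask and the list of their elements. -/
def srch (tr : ℕ → Bool) (ps : List (ℕ × List ℕ)) : ℕ → ℕ → ℕ → Bool :=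
  @List.rec (ℕ × List ℕ) (fun _ => ℕ → ℕ → ℕ → Bool) (fun _ chosen _ => tr chosen)
    (fun p _ ih k chosen forb => cond (Nat.beq (Nat.land chosen p.1) 0)
      (@Nat.rec (fun _ => Bool) true (fun k' _ => loop ih k' chosen p.2 forb) k)
      (ih k chosen forb)) ps

theorem loop_nil (ih : ℕ → ℕ → ℕ → Bool) (k chosen forb : ℕ) :
    loop ih k chosen [] forb = true := rfl

theorem loop_step {ih : ℕ → ℕ → ℕ → Bool} {k chosen b : ℕ} {bs : List ℕ} {forb c' forb' : ℕ}
    (h1 : Nat.beq (Nat.land forb b) 0 = true) (hc : Nat.lor chosen b = c')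
    (h2 : ih k c' forb = true) (hf : Nat.lor forb b = forb')
    (h3 : loop ih k chosen bs forb' = true) : loop ih k chosen (b :: bs) forb = true := by
  change cond (Nat.beq (Nat.land forb b) 0)
    (and (ih k (Nat.lor chosen b) forb) (loop ih k chosen bs (Nat.lor forb b)))
    (loop ih k chosen bs forb) = true
  rw [h1, hc, hf, h2, h3]
  rfl

theorem srch_step {tr : ℕ → Bool} {p : ℕ × List ℕ} {ps : List (ℕ × List ℕ)} {k chosen forb : ℕ}
    (h1 : Nat.beq (Nat.land chosen p.1) 0 = true)
    (h : loop (srch tr ps) k chosen p.2 forb = true) :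
    srch tr (p :: ps) (k + 1) chosen forb = true := by
  change cond (Nat.beq (Nat.land chosen p.1) 0) (loop (srch tr ps) k chosen p.2 forb)
    (srch tr ps (k + 1) chosen forb) = true
  rw [h1, h]
  rfl

/-- The mask of a list of natural numbers. -/
def mask (p : List ℕ) : ℕ := p.foldr (fun l acc => Nat.lor (2 ^ l) acc) 0

/-- A list of natural numbers in the form used by `srch`. -/
def conv (p : List ℕ) : ℕ × List ℕ := (mask p, p.map fun l => 2 ^ l)

theorem testBit_mask (p : List ℕ) (l : ℕ) : (mask p).testBit l = true ↔ l ∈ p := by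
  induction p with
  | nil => simp [mask]
  | cons a p ih =>
    have h : mask (a :: p) = 2 ^ a ||| mask p := rfl
    rw [h, Nat.testBit_or, Bool.or_eq_true, Nat.testBit_two_pow, ih, List.mem_cons]
    simp [eq_comm]

theorem testBit_lor (m l x : ℕ) :
    (Nat.lor m (2 ^ l)).testBit x = true ↔ m.testBit x = true ∨ l = x := by
  change (m ||| 2 ^ l).testBit x = true ↔ _
  rw [Nat.testBit_or, Bool.or_eq_true, Nat.testBit_two_pow]
  simp

theorem beq_land_pow (m l : ℕ) : Nat.beq (Nat.land m (2 ^ l)) 0 = true ↔ ¬ m.testBit l = true := by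
  rw [Nat.beq_eq]
  change m &&& 2 ^ l = 0 ↔ _
  constructor
  · intro h hl
    have := congrArg (fun x => x.testBit l) h
    simp [Nat.testBit_and, hl] at this
  · intro h
    refine Nat.eq_of_testBit_eq fun x => ?_
    rw [Nat.testBit_and, Nat.zero_testBit, Nat.testBit_two_pow]
    by_cases hx : l = x
    · subst hx
      simp [h]
    · simp [hx]

theorem loop_sound (ih : ℕ → ℕ → ℕ → Bool) (k chosen : ℕ) (C : Finset ℕ) (q : List ℕ) :
    ∀ (forb : ℕ), (∀ l, forb.testBit l = true → l ∉ C) →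
      loop ih k chosen (q.map fun l => 2 ^ l) forb = true → (∃ l ∈ q, l ∈ C) →
      ∃ l ∈ q, l ∈ C ∧ ∃ forb', (∀ l, forb'.testBit l = true → l ∉ C) ∧
        ih k (Nat.lor chosen (2 ^ l)) forb' = true := by
  induction q with
  | nil => exact fun _ _ _ ⟨l, hl, _⟩ => absurd hl List.not_mem_nil
  | cons a q ihq =>
    intro forb hforb h hex
    rw [List.map_cons] at h
    change cond (Nat.beq (Nat.land forb (2 ^ a)) 0)
      (and (ih k (Nat.lor chosen (2 ^ a)) forb)
        (loop ih k chosen (q.map fun l => 2 ^ l) (Nat.lor forb (2 ^ a))))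
      (loop ih k chosen (q.map fun l => 2 ^ l) forb) = true at h
    by_cases ha : Nat.beq (Nat.land forb (2 ^ a)) 0 = true
    · rw [ha, cond_true, Bool.and_eq_true] at h
      by_cases haC : a ∈ C
      · exact ⟨a, List.mem_cons_self, haC, forb, hforb, h.1⟩
      · obtain ⟨l, hl, hlC⟩ := hex
        rcases List.mem_cons.1 hl with rfl | hl
        · exact absurd hlC haC
        · obtain ⟨l', hl', h3⟩ := ihq _ (fun x hx => by
            rcases (testBit_lor _ _ _).1 hx with hx | rfl
            · exact hforb x hx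
            · exact haC) h.2 ⟨l, hl, hlC⟩
          exact ⟨l', List.mem_cons_of_mem _ hl', h3⟩
    · rw [Bool.not_eq_true] at ha
      rw [ha, cond_false] at h
      have ha' : forb.testBit a = true := by
        by_contra hno
        rw [(beq_land_pow forb a).2 hno] at ha
        exact absurd ha (by simp)
      obtain ⟨l, hl, hlC⟩ := hex
      rcases List.mem_cons.1 hl with rfl | hl
      · exact absurd hlC (hforb _ ha')
      · obtain ⟨l', hl', h3⟩ := ihq forb hforb h ⟨l, hl, hlC⟩
        exact ⟨l', List.mem_cons_of_mem _ hl', h3⟩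

theorem srch_sound (tr : ℕ → Bool) (C : Finset ℕ) (ps : List (List ℕ)) :
    ∀ (k chosen forb : ℕ), srch tr (ps.map conv) k chosen forb = true →
      (∀ l, chosen.testBit l = true → l ∈ C) → (∀ l, forb.testBit l = true → l ∉ C) →
      (C.filter fun l => ¬ chosen.testBit l = true).card ≤ k → (∀ p ∈ ps, ∃ l ∈ p, l ∈ C) →
      ∃ chosen' : ℕ, tr chosen' = true ∧ ∀ l, chosen'.testBit l = true → l ∈ C := by
  induction ps with
  | nil =>
    intro k chosen forb h h1 _ _ _
    exact ⟨chosen, h, h1⟩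
  | cons p ps ih =>
    intro k chosen forb h h1 h2 h3 h4
    rw [List.map_cons] at h
    change cond (Nat.beq (Nat.land chosen (mask p)) 0)
      (@Nat.rec (fun _ => Bool) true
        (fun k' _ => loop (srch tr (ps.map conv)) k' chosen (p.map fun l => 2 ^ l) forb) k)
      (srch tr (ps.map conv) k chosen forb) = true at h
    by_cases hp : Nat.beq (Nat.land chosen (mask p)) 0 = true
    · rw [hp, cond_true] at h
      have hp' : ∀ l ∈ p, ¬ chosen.testBit l = true := by
        intro l hl hlt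
        rw [Nat.beq_eq] at hp
        have hz : chosen &&& mask p = 0 := hp
        have := congrArg (fun x => x.testBit l) hz
        simp [Nat.testBit_and, hlt, (testBit_mask p l).2 hl] at this
      cases k with
      | zero =>
        obtain ⟨l, hl, hlC⟩ := h4 p List.mem_cons_self
        have h5 := Finset.card_eq_zero.1 (Nat.le_zero.1 h3)
        have : l ∈ C.filter fun l => ¬ chosen.testBit l = true :=
          Finset.mem_filter.2 ⟨hlC, hp' l hl⟩
        rw [h5] at this
        exact absurd this (Finset.notMem_empty _)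
      | succ k =>
        obtain ⟨l, hl, hlC, forb', hf, hs⟩ := loop_sound (srch tr (ps.map conv)) k chosen C p forb
          h2 h (h4 p List.mem_cons_self)
        refine ih k _ _ hs ?_ hf ?_ fun q hq => h4 q (List.mem_cons_of_mem _ hq)
        · intro l' hl'
          rcases (testBit_lor _ _ _).1 hl' with hl' | rfl
          · exact h1 l' hl'
          · exact hlC
        · have h6 : (C.filter fun x => ¬ (Nat.lor chosen (2 ^ l)).testBit x = true) ⊆
              (C.filter fun x => ¬ chosen.testBit x = true).erase l := by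
            intro x hx
            rw [Finset.mem_filter, testBit_lor, not_or] at hx
            rw [Finset.mem_erase, Finset.mem_filter]
            exact ⟨Ne.symm hx.2.2, hx.1, hx.2.1⟩
          have h7 := Finset.card_le_card h6
          rw [Finset.card_erase_of_mem (Finset.mem_filter.2 ⟨hlC, hp' l hl⟩)] at h7
          omega
    · rw [Bool.not_eq_true] at hp
      rw [hp, cond_false] at h
      exact ih k chosen forb h h1 h2 h3 fun q hq => h4 q (List.mem_cons_of_mem _ hq)

/-- The test used at the end of the search: `chosen` contains one of the sets of `M`. -/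
def tst (M : List ℕ) (chosen : ℕ) : Bool := M.any fun m => Nat.beq (Nat.land chosen m) m

theorem tst_sound {M : List (List ℕ)} {chosen : ℕ} (h : tst (M.map mask) chosen = true) :
    ∃ m ∈ M, ∀ l ∈ m, chosen.testBit l = true := by
  obtain ⟨x, hx, hx2⟩ := List.any_eq_true.1 h
  obtain ⟨m, hm, rfl⟩ := List.mem_map.1 hx
  refine ⟨m, hm, fun l hl => ?_⟩
  rw [Nat.beq_eq] at hx2
  have h1 : chosen &&& mask m = mask m := hx2
  have h2 := congrArg (fun x => x.testBit l) h1
  simp only [Nat.testBit_and, (testBit_mask m l).2 hl, Bool.and_true] at h2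
  exact h2

/-! ### Hypergraphs given by tables -/

/-- The edge of the table `T` with index `p`. -/
def tedge {r n N : ℕ} (T : Fin N → Fin r → Fin n) (p : Fin N) : Finset (Fin r × Fin n) :=
  univ.image fun i => (i, T p i)

theorem mem_tedge {r n N : ℕ} {T : Fin N → Fin r → Fin n} {p : Fin N} {v : Fin r × Fin n} :
    v ∈ tedge T p ↔ T p v.1 = v.2 := by
  simp only [tedge, mem_image, mem_univ, true_and]
  constructor
  · rintro ⟨i, rfl⟩
    rfl
  · intro h
    exact ⟨v.1, by rw [h]⟩

/-- The `r`-partite hypergraph whose sides are `Fin n`, with edges `{(i, T p i) : i}`. -/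
abbrev ofTable {r n N : ℕ} (T : Fin N → Fin r → Fin n) (hT : ∀ i x, ∃ p, T p i = x) :
    RPartiteHypergraph r where
  V := Fin r × Fin n
  finite := inferInstance
  side v := v.1
  edges := univ.image (tedge T)
  edge_side := by
    intro e he i
    obtain ⟨p, -, rfl⟩ := mem_image.1 he
    refine ⟨(i, T p i), ⟨mem_tedge.2 rfl, rfl⟩, ?_⟩
    rintro ⟨j, x⟩ ⟨h1, rfl⟩
    rw [mem_tedge] at h1
    simp only at h1
    rw [h1]
  mem_edge := by
    rintro ⟨i, x⟩
    obtain ⟨p, hp⟩ := hT i x
    exact ⟨_, mem_image_of_mem _ (mem_univ p), mem_tedge.2 hp⟩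

variable {r n N : ℕ} {T : Fin N → Fin r → Fin n} {hT : ∀ i x, ∃ p, T p i = x}

theorem ofTable_intersecting (h : ∀ p q, ∃ i, T p i = T q i) : (ofTable T hT).Intersecting := by
  intro e he e' he'
  obtain ⟨p, -, rfl⟩ := mem_image.1 he
  obtain ⟨q, -, rfl⟩ := mem_image.1 he'
  obtain ⟨i, hi⟩ := h p q
  exact ⟨(i, T p i), mem_tedge.2 rfl, mem_tedge.2 hi.symm⟩

theorem ofTable_cover_iff (C : Finset (Fin r × Fin n)) :
    (ofTable T hT).IsNontrivialCover C ↔ (∀ p, ∃ i, (i, T p i) ∈ C) ∧
      (∀ p, ∃ i, (i, T p i) ∉ C) ∧ ∀ i, ∃ x, (i, x) ∉ C := by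
  constructor
  · rintro ⟨h1, h2, h3⟩
    refine ⟨fun p => ?_, fun p => ?_, fun i => ?_⟩
    · obtain ⟨⟨i, x⟩, hC, hv⟩ := h1 _ (mem_image_of_mem _ (mem_univ p))
      rw [mem_tedge] at hv
      exact ⟨i, by simp only at hv; rw [hv]; exact hC⟩
    · have h := h2 _ (mem_image_of_mem _ (mem_univ p))
      rw [Finset.not_subset] at h
      obtain ⟨⟨i, x⟩, hv, hC⟩ := h
      rw [mem_tedge] at hv
      exact ⟨i, by simp only at hv; rw [hv]; exact hC⟩
    · have h := h3 i
      rw [Set.not_subset] at h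
      obtain ⟨⟨j, x⟩, rfl, hC⟩ := h
      exact ⟨x, fun h => hC (mem_coe.2 h)⟩
  · rintro ⟨h1, h2, h3⟩
    refine ⟨?_, ?_, ?_⟩
    · intro e he
      obtain ⟨p, -, rfl⟩ := mem_image.1 he
      obtain ⟨i, hi⟩ := h1 p
      exact ⟨_, hi, mem_tedge.2 rfl⟩
    · intro e he hsub
      obtain ⟨p, -, rfl⟩ := mem_image.1 he
      obtain ⟨i, hi⟩ := h2 p
      exact hi (hsub (mem_tedge.2 rfl))
    · intro i hsub
      obtain ⟨x, hx⟩ := h3 i
      exact hx (mem_coe.1 (@hsub (i, x) rfl))

/-- The codes of the vertices of an edge. -/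
def pen {r n N : ℕ} (T : Fin N → Fin r → Fin n) (p : Fin N) : List ℕ :=
  (List.finRange r).map fun i : Fin r => (i : ℕ) * n + (T p i : ℕ)

/-- The codes of the vertices of a side. -/
def cls (r n : ℕ) (i : Fin r) : List ℕ :=
  (List.finRange n).map fun x : Fin n => (i : ℕ) * n + (x : ℕ)

theorem lt_card_of_srch (L : List (List ℕ)) (M : List (List ℕ)) (k : ℕ)
    (hL : ∀ l ∈ L, ∃ p, pen T p = l)
    (hM : ∀ m ∈ M, (∃ p, pen T p = m) ∨ ∃ i, cls r n i = m)
    (hs : srch (tst (M.map mask)) (L.map conv) k 0 0 = true)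
    (C : Finset (Fin r × Fin n)) (hC : (ofTable T hT).IsNontrivialCover C) : k < C.card := by
  rw [ofTable_cover_iff] at hC
  obtain ⟨h1, h2, h3⟩ := hC
  by_contra hk
  rw [not_lt] at hk
  let code : Fin r × Fin n → ℕ := fun v => (v.1 : ℕ) * n + (v.2 : ℕ)
  have hcode : Function.Injective code := by
    rintro ⟨i, x⟩ ⟨j, y⟩ h
    simp only [code] at h
    have hx := x.2
    have hy := y.2
    have hn : 0 < n := lt_of_le_of_lt (Nat.zero_le _) hx
    have e1 : (i : ℕ) = j := by
      have := congrArg (· / n) h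
      rw [mul_comm (i : ℕ), mul_comm (j : ℕ)] at this
      simp only [Nat.mul_add_div hn, Nat.div_eq_of_lt hx, Nat.div_eq_of_lt hy] at this
      simpa using this
    have e2 : (x : ℕ) = y := by
      rw [e1] at h
      omega
    rw [Fin.ext e1, Fin.ext e2]
  obtain ⟨ch, hch, hsub⟩ := srch_sound _ (C.image code) L k 0 0 hs (by simp) (by simp)
    ((card_filter_le _ _).trans (card_image_le.trans hk)) (by
      intro p hp
      obtain ⟨q, rfl⟩ := hL p hp
      obtain ⟨i, hi⟩ := h1 q
      exact ⟨code (i, T q i), List.mem_map.2 ⟨i, List.mem_finRange i, rfl⟩,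
        mem_image_of_mem _ hi⟩)
  obtain ⟨m, hm, hmall⟩ := tst_sound hch
  rcases hM m hm with ⟨p, rfl⟩ | ⟨i, rfl⟩
  · obtain ⟨i, hi⟩ := h2 p
    apply hi
    have h4 := hsub _ (hmall (code (i, T p i)) (List.mem_map.2 ⟨i, List.mem_finRange i, rfl⟩))
    obtain ⟨v, hv, hvc⟩ := mem_image.1 h4
    rw [← hcode hvc]
    exact hv
  · obtain ⟨x, hx⟩ := h3 i
    apply hx
    have h4 := hsub _ (hmall (code (i, x)) (List.mem_map.2 ⟨x, List.mem_finRange x, rfl⟩))
    obtain ⟨v, hv, hvc⟩ := mem_image.1 h4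
    rw [← hcode hvc]
    exact hv

/-- The lower bound for `f₂` given by a table. -/
theorem le_f₂ (hI : ∀ p q, ∃ i, T p i = T q i) (hn : 2 ≤ n) (t : ℕ)
    (C₀ : Finset (Fin r × Fin n)) (hC₀ : (ofTable T hT).IsNontrivialCover C₀)
    (ht : ∀ C, (ofTable T hT).IsNontrivialCover C → t ≤ C.card) : (t : ℕ∞) ≤ f₂ r := by
  have h1 : t ≤ (ofTable T hT).tauStar := by
    refine le_csInf ⟨_, C₀, hC₀, rfl⟩ ?_
    rintro m ⟨C, hC, rfl⟩
    exact ht C hC
  have h2 : ∀ i, 2 ≤ {v | (ofTable T hT).side v = i}.ncard := by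
    intro i
    have : {v : Fin r × Fin n | v.1 = i} = Set.range fun x : Fin n => (i, x) := by
      ext ⟨j, x⟩
      simp only [Set.mem_ofPred_eq, Set.mem_range, Prod.mk.injEq]
      exact ⟨fun h => ⟨x, h.symm, rfl⟩, fun ⟨y, h, _⟩ => h.symm⟩
    change 2 ≤ {v : Fin r × Fin n | v.1 = i}.ncard
    rw [this, Set.ncard_range_of_injective (fun x y h => by simpa using h), Nat.card_eq_fintype_card,
      Fintype.card_fin]
    exact hn
  have h3 : ((ofTable T hT).tauStar : ℕ∞) ≤ f₂ r :=
    le_iSup_of_le (ofTable T hT) (le_iSup_of_le (ofTable_intersecting hI)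
      (le_iSup_of_le ⟨_, hC₀⟩ (le_iSup_of_le h2 le_rfl)))
  exact (by exact_mod_cast h1 : (t : ℕ∞) ≤ ((ofTable T hT).tauStar : ℕ∞)).trans h3

/-- The upper bound for `f₂`. -/
theorem f₂_le (r : ℕ) (hr : 3 ≤ r) : f₂ r ≤ ((if r = 4 then 5 else 2 * r - 4 : ℕ) : ℕ∞) := by
  refine iSup_le fun G => iSup_le fun hI => iSup_le fun hC => iSup_le fun h2 => ?_
  obtain ⟨C, hC, hCc⟩ := upper r hr G hI h2 hC
  have : G.tauStar ≤ C.card := Nat.sInf_le ⟨C, hC, rfl⟩
  exact_mod_cast this.trans hCc

/-! ### The tables -/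

/-- The table for `r = 3`. -/
def T2 (p : Fin 4) (i : Fin 3) : Fin 2 := if (p : ℕ) = (i : ℕ) then 1 else 0

/-- The table for `r = 4` (the affine plane of order `3`). -/
def T3 (p : Fin 9) (i : Fin 4) : Fin 3 :=
  if (i : ℕ) < 3 then ⟨((p : ℕ) % 3 + (3 - i) * ((p : ℕ) / 3)) % 3, Nat.mod_lt _ (by norm_num)⟩
  else ⟨(p : ℕ) / 3 % 3, Nat.mod_lt _ (by norm_num)⟩

/-- Multiplication in the field with four elements. -/
def mul4 (a b : ℕ) : ℕ :=
  (([[0, 0, 0, 0], [0, 1, 2, 3], [0, 2, 3, 1], [0, 3, 1, 2]] : List (List ℕ)).getD a []).getD b 0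

/-- The table for `r = 5` (the affine plane of order `4`). -/
def T4 (p : Fin 16) (i : Fin 5) : Fin 4 :=
  if (i : ℕ) < 4 then ⟨(((p : ℕ) % 4) ^^^ mul4 i ((p : ℕ) / 4)) % 4, Nat.mod_lt _ (by norm_num)⟩
  else ⟨(p : ℕ) / 4 % 4, Nat.mod_lt _ (by norm_num)⟩

/-- The table for `r = 6` (the affine plane of order `5`). -/
def T5 (p : Fin 25) (i : Fin 6) : Fin 5 :=
  if (i : ℕ) < 5 then ⟨((p : ℕ) % 5 + (5 - i) * ((p : ℕ) / 5)) % 5, Nat.mod_lt _ (by norm_num)⟩
  else ⟨(p : ℕ) / 5 % 5, Nat.mod_lt _ (by norm_num)⟩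

/-- The edges for `r = 4`. -/
def L3 : List (List ℕ) :=
  [[0, 3, 6, 9], [1, 4, 7, 9], [2, 5, 8, 9], [0, 5, 7, 10], [1, 3, 8, 10], [2, 4, 6, 10], [0, 4,
   8, 11], [1, 5, 6, 11], [2, 3, 7, 11]]

/-- The sides for `r = 4`. -/
def M3 : List (List ℕ) :=
  [[0, 1, 2], [3, 4, 5], [6, 7, 8], [9, 10, 11]]

/-- `L3` in the form used by the search. -/
def P3 : List (ℕ × List ℕ) :=
  [(585, [1, 8, 64, 512]), (658, [2, 16, 128, 512]), (804, [4, 32, 256, 512]), (1185, [1, 32, 128,
   1024]), (1290, [2, 8, 256, 1024]), (1108, [4, 16, 64, 1024]), (2321, [1, 16, 256, 2048]),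
   (2146, [2, 32, 64, 2048]), (2188, [4, 8, 128, 2048])]

/-- The masks of the edges and the sides for `r = 4`. -/
def Q3 : List ℕ :=
  [585, 658, 804, 1185, 1290, 1108, 2321, 2146, 2188, 7, 56, 448, 3584]

theorem P3_eq : L3.map conv = P3 := by decide +kernel

theorem Q3_eq : (L3 ++ M3).map mask = Q3 := by decide +kernel

/-- The edges for `r = 5`. -/
def L4 : List (List ℕ) :=
  [[0, 4, 8, 12, 16], [1, 5, 9, 13, 16], [2, 6, 10, 14, 16], [3, 7, 11, 15, 16], [0, 5, 10, 15,
   17], [1, 4, 11, 14, 17], [2, 7, 8, 13, 17], [3, 6, 9, 12, 17], [0, 6, 11, 13, 18], [1, 7, 10,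
   12, 18], [2, 4, 9, 15, 18], [3, 5, 8, 14, 18], [0, 7, 9, 14, 19], [1, 6, 8, 15, 19], [2, 5, 11,
   12, 19], [3, 4, 10, 13, 19]]

/-- The sides for `r = 5`. -/
def M4 : List (List ℕ) :=
  [[0, 1, 2, 3], [4, 5, 6, 7], [8, 9, 10, 11], [12, 13, 14, 15], [16, 17, 18, 19]]

/-- `L4` in the form used by the search. -/
def P4 : List (ℕ × List ℕ) :=
  [(69905, [1, 16, 256, 4096, 65536]), (74274, [2, 32, 512, 8192, 65536]), (83012, [4, 64, 1024,
   16384, 65536]), (100488, [8, 128, 2048, 32768, 65536]), (164897, [1, 32, 1024, 32768, 131072]),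
   (149522, [2, 16, 2048, 16384, 131072]), (139652, [4, 128, 256, 8192, 131072]), (135752, [8, 64,
   512, 4096, 131072]), (272449, [1, 64, 2048, 8192, 262144]), (267394, [2, 128, 1024, 4096,
   262144]), (295444, [4, 16, 512, 32768, 262144]), (278824, [8, 32, 256, 16384, 262144]),
   (541313, [1, 128, 512, 16384, 524288]), (557378, [2, 64, 256, 32768, 524288]), (530468, [4, 32,
   2048, 4096, 524288]), (533528, [8, 16, 1024, 8192, 524288])]

/-- The masks of the edges and the sides for `r = 5`. -/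
def Q4 : List ℕ :=
  [69905, 74274, 83012, 100488, 164897, 149522, 139652, 135752, 272449, 267394, 295444, 278824,
   541313, 557378, 530468, 533528, 15, 240, 3840, 61440, 983040]

theorem P4_eq : L4.map conv = P4 := by decide +kernel

theorem Q4_eq : (L4 ++ M4).map mask = Q4 := by decide +kernel

/-- The edges for `r = 6`. -/
def L5 : List (List ℕ) :=
  [[0, 5, 10, 15, 20, 25], [1, 6, 11, 16, 21, 25], [2, 7, 12, 17, 22, 25], [3, 8, 13, 18, 23, 25],
   [4, 9, 14, 19, 24, 25], [0, 9, 13, 17, 21, 26], [1, 5, 14, 18, 22, 26], [2, 6, 10, 19, 23, 26],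
   [3, 7, 11, 15, 24, 26], [4, 8, 12, 16, 20, 26], [0, 8, 11, 19, 22, 27], [1, 9, 12, 15, 23, 27],
   [2, 5, 13, 16, 24, 27], [3, 6, 14, 17, 20, 27], [4, 7, 10, 18, 21, 27], [0, 7, 14, 16, 23, 28],
   [1, 8, 10, 17, 24, 28], [2, 9, 11, 18, 20, 28], [3, 5, 12, 19, 21, 28], [4, 6, 13, 15, 22, 28],
   [0, 6, 12, 18, 24, 29], [1, 7, 13, 19, 20, 29], [2, 8, 14, 15, 21, 29], [3, 9, 10, 16, 22, 29],
   [4, 5, 11, 17, 23, 29]]

/-- The sides for `r = 6`. -/
def M5 : List (List ℕ) :=
  [[0, 1, 2, 3, 4], [5, 6, 7, 8, 9], [10, 11, 12, 13, 14], [15, 16, 17, 18, 19], [20, 21, 22, 23,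
   24], [25, 26, 27, 28, 29]]

/-- `L5` in the form used by the search. -/
def P5 : List (ℕ × List ℕ) :=
  [(34636833, [1, 32, 1024, 32768, 1048576, 33554432]), (35719234, [2, 64, 2048, 65536, 2097152,
   33554432]), (37884036, [4, 128, 4096, 131072, 4194304, 33554432]), (42213640, [8, 256, 8192,
   262144, 8388608, 33554432]), (50872848, [16, 512, 16384, 524288, 16777216, 33554432]),
   (69345793, [1, 512, 8192, 131072, 2097152, 67108864]), (71581730, [2, 32, 16384, 262144,
   4194304, 67108864]), (76022852, [4, 64, 1024, 524288, 8388608, 67108864]), (83921032, [8, 128,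
   2048, 32768, 16777216, 67108864]), (68227344, [16, 256, 4096, 65536, 1048576, 67108864]),
   (138938625, [1, 256, 2048, 524288, 4194304, 134217728]), (142643714, [2, 512, 4096, 32768,
   8388608, 134217728]), (151068708, [4, 32, 8192, 65536, 16777216, 134217728]), (135413832, [8,
   64, 16384, 131072, 1048576, 134217728]), (136578192, [16, 128, 1024, 262144, 2097152,
   134217728]), (276906113, [1, 128, 16384, 65536, 8388608, 268435456]), (285345026, [2, 256,
   1024, 131072, 16777216, 268435456]), (269748740, [4, 512, 2048, 262144, 1048576, 268435456]),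
   (271061032, [8, 32, 4096, 524288, 2097152, 268435456]), (272670800, [16, 64, 8192, 32768,
   4194304, 268435456]), (553914433, [1, 64, 4096, 262144, 16777216, 536870912]), (538452098, [2,
   128, 8192, 524288, 1048576, 536870912]), (539017476, [4, 256, 16384, 32768, 2097152,
   536870912]), (541132296, [8, 512, 1024, 65536, 4194304, 536870912]), (545392688, [16, 32, 2048,
   131072, 8388608, 536870912])]

/-- The masks of the edges and the sides for `r = 6`. -/
def Q5 : List ℕ :=
  [34636833, 35719234, 37884036, 42213640, 50872848, 69345793, 71581730, 76022852, 83921032,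
   68227344, 138938625, 142643714, 151068708, 135413832, 136578192, 276906113, 285345026,
   269748740, 271061032, 272670800, 553914433, 538452098, 539017476, 541132296, 545392688, 31,
   992, 31744, 1015808, 32505856, 1040187392]

theorem P5_eq : L5.map conv = P5 := by decide +kernel

theorem Q5_eq : (L5 ++ M5).map mask = Q5 := by decide +kernel

theorem f₂_three : 2 ≤ f₂ 3 := by
  have hT : ∀ i x, ∃ p, T2 p i = x := by decide
  refine le_f₂ (hT := hT) (by decide) (by norm_num) 2 {(0, 0), (1, 0)} ?_ ?_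
  · rw [ofTable_cover_iff]
    decide
  · intro C hC
    rw [ofTable_cover_iff] at hC
    have key : ∀ C : Finset (Fin 3 × Fin 2), ((∀ p, ∃ i, (i, T2 p i) ∈ C) ∧
        (∀ p, ∃ i, (i, T2 p i) ∉ C) ∧ ∀ i, ∃ x, (i, x) ∉ C) → 2 ≤ C.card := by decide +kernel
    exact key C hC

theorem srch5_0 : srch (tst Q5) P5.tail 6 1 0 = true := by decide +kernel

theorem srch5_1 : srch (tst Q5) P5.tail 6 32 1 = true := by decide +kernel

theorem srch5_2 : srch (tst Q5) P5.tail 6 1024 33 = true := by decide +kernel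

theorem srch5_3 : srch (tst Q5) P5.tail 6 32768 1057 = true := by decide +kernel

theorem srch5_4 : srch (tst Q5) P5.tail 6 1048576 33825 = true := by decide +kernel

theorem srch5_5 : srch (tst Q5) P5.tail 6 33554432 1082401 = true := by decide +kernel

theorem srch3 : srch (tst Q3) P3 4 0 0 = true := by decide +kernel

theorem srch4 : srch (tst Q4) P4 5 0 0 = true := by decide +kernel

theorem srch5 : srch (tst Q5) P5 7 0 0 = true := by
  have h : P5 = (34636833, [1, 32, 1024, 32768, 1048576, 33554432]) :: P5.tail := rfl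
  rw [h]
  exact srch_step (by decide)
    (loop_step (c' := 1) (forb' := 1) (by decide) (by decide) srch5_0 (by decide)
    (loop_step (c' := 32) (forb' := 33) (by decide) (by decide) srch5_1 (by decide)
    (loop_step (c' := 1024) (forb' := 1057) (by decide) (by decide) srch5_2 (by decide)
    (loop_step (c' := 32768) (forb' := 33825) (by decide) (by decide) srch5_3 (by decide)
    (loop_step (c' := 1048576) (forb' := 1082401) (by decide) (by decide) srch5_4 (by decide)
    (loop_step (c' := 33554432) (forb' := 34636833) (by decide) (by decide) srch5_5 (by decide)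
    (loop_nil _ _ _ _)))))))

theorem f₂_four : 5 ≤ f₂ 4 := by
  have hT : ∀ i x, ∃ p, T3 p i = x := by decide +kernel
  refine le_f₂ (hT := hT) (by decide +kernel) (by norm_num) 5
    {(0, 1), (0, 2), (1, 0), (1, 1), (3, 1)} ?_ ?_
  · rw [ofTable_cover_iff]
    decide +kernel
  · intro C hC
    refine lt_card_of_srch L3 (L3 ++ M3) 4 (by decide +kernel) (by decide +kernel) ?_ C hC
    rw [P3_eq, Q3_eq]
    exact srch3

theorem f₂_five : 6 ≤ f₂ 5 := by
  have hT : ∀ i x, ∃ p, T4 p i = x := by decide +kernel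
  refine le_f₂ (hT := hT) (by decide +kernel) (by norm_num) 6
    {(0, 0), (0, 1), (1, 0), (1, 1), (4, 0), (4, 1)} ?_ ?_
  · rw [ofTable_cover_iff]
    decide +kernel
  · intro C hC
    refine lt_card_of_srch L4 (L4 ++ M4) 5 (by decide +kernel) (by decide +kernel) ?_ C hC
    rw [P4_eq, Q4_eq]
    exact srch4

theorem f₂_six : 8 ≤ f₂ 6 := by
  have hT : ∀ i x, ∃ p, T5 p i = x := by decide +kernel
  refine le_f₂ (hT := hT) (by decide +kernel) (by norm_num) 8
    {(0, 0), (0, 1), (1, 2), (4, 0), (4, 3), (4, 4), (5, 3), (5, 4)} ?_ ?_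
  · rw [ofTable_cover_iff]
    decide +kernel
  · intro C hC
    refine lt_card_of_srch L5 (L5 ++ M5) 7 (by decide +kernel) (by decide +kernel) ?_ C hC
    rw [P5_eq, Q5_eq]
    exact srch5

end Pool.Agent.Lib.MP_2c613a_co
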