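import Pool.Agent.Lib.MP_2c613a_co.Upper

set_option autoImplicit false

/-!
# The case `r = 3`, and the upper bound for hypergraphs
-/

namespace Pool.Agent.Lib.MP_2c613a_co

open Finset

theorem prop_aux₁ (p p' q q' s s' : Prop) (i1 : p ∨ q ∨ s) (i2 : p' ∨ q' ∨ s)
    (i3 : p' ∨ q ∨ s') (i4 : p ∨ q' ∨ s') (n0 : ¬ (p ∧ p')) (n1 : ¬ (q ∧ q')) (n2 : ¬ (s ∧ s')) :
    (p ∨ p') ∧ (q ∨ q') ∧ (s ∨ s') := by
  by_cases hp : p <;> by_cases hp' : p' <;> by_cases hq : q <;> by_cases hq' : q' <;>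
    by_cases hs : s <;> by_cases hs' : s' <;> simp_all

theorem prop_aux₂ (p p' q q' s s' : Prop) (i1 : p ∨ q ∨ s) (i2 : p' ∨ q' ∨ s)
    (i3 : p' ∨ q ∨ s') (i4 : p ∨ q' ∨ s') (n0 : ¬ (p ∧ p')) (n1 : ¬ (q ∧ q')) (n2 : ¬ (s ∧ s'))
    (j1 : ¬ (p ∧ q ∧ s)) (j2 : ¬ (p' ∧ q' ∧ s)) (j3 : ¬ (p' ∧ q ∧ s')) (j4 : ¬ (p ∧ q' ∧ s')) :
    False := by
  by_cases hp : p <;> by_cases hp' : p' <;> by_cases hq : q <;> by_cases hq' : q' <;>
    by_cases hs : s <;> by_cases hs' : s' <;> simp_all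

theorem bound_three {V : Type} [DecidableEq V] {side : V → Fin 3} {E : Finset (Fin 3 → V)}
    (H : Hyp side E) {C₀ : Finset V} (hC₀ : NT side E C₀) : ∃ C, NT side E C ∧ C.card ≤ 2 := by
  classical
  by_contra hsmall
  have P : ∀ x y, side x ≠ side y → ∃ g ∈ E, g (side x) ≠ x ∧ g (side y) ≠ y := by
    intro x y hxy
    by_contra hno
    push Not at hno
    apply hsmall
    refine ⟨{x, y}, ⟨fun g hg => ?_, fun g hg => ?_, fun i => ?_⟩, card_le_two⟩
    · by_cases h : g (side x) = x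
      · exact ⟨side x, by simp [h]⟩
      · exact ⟨side y, by simp [hno g hg h]⟩
    · obtain ⟨k, hk1, hk2⟩ : ∃ k : Fin 3, k ≠ side x ∧ k ≠ side y := by
        generalize side x = a
        generalize side y = b
        revert a b
        decide
      refine ⟨k, fun h => ?_⟩
      simp only [mem_insert, mem_singleton] at h
      rcases h with h | h
      · exact hk1 (by rw [← h, H.side_eq g hg])
      · exact hk2 (by rw [← h, H.side_eq g hg])
    · by_cases hx : side x = i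
      · obtain ⟨w, hw1, hw2⟩ := H.two x
        refine ⟨w, hw1.trans hx, ?_⟩
        simp only [mem_insert, mem_singleton, not_or]
        refine ⟨hw2, ?_⟩
        rintro rfl
        exact hxy hw1.symm
      · by_cases hy : side y = i
        · obtain ⟨w, hw1, hw2⟩ := H.two y
          refine ⟨w, hw1.trans hy, ?_⟩
          simp only [mem_insert, mem_singleton, not_or]
          refine ⟨?_, hw2⟩
          rintro rfl
          exact hxy hw1
        · obtain ⟨v, hv⟩ := H.ne i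
          refine ⟨v, hv, ?_⟩
          simp only [mem_insert, mem_singleton, not_or]
          constructor
          · rintro rfl
            exact hx hv
          · rintro rfl
            exact hy hv
  -- intersections, index by index
  have I : ∀ g ∈ E, ∀ g' ∈ E, g 0 = g' 0 ∨ g 1 = g' 1 ∨ g 2 = g' 2 := by
    intro g hg g' hg'
    obtain ⟨i, hi⟩ := H.inter g hg g' hg'
    fin_cases i
    · exact Or.inl hi
    · exact Or.inr (Or.inl hi)
    · exact Or.inr (Or.inr hi)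
  obtain ⟨v₀, hv₀⟩ := H.ne 0
  obtain ⟨g, hg, -⟩ := H.mem v₀
  have P' : ∀ i j : Fin 3, i ≠ j → ∃ h ∈ E, h i ≠ g i ∧ h j ≠ g j := by
    intro i j hij
    have h1 := P (g i) (g j) (by rw [H.side_eq g hg, H.side_eq g hg]; exact hij)
    rw [H.side_eq g hg, H.side_eq g hg] at h1
    exact h1
  obtain ⟨h, hh, hh0, hh1⟩ := P' 0 1 (by decide)
  obtain ⟨h', hh', hh'0, hh'2⟩ := P' 0 2 (by decide)
  obtain ⟨h'', hh'', hh''1, hh''2⟩ := P' 1 2 (by decide)
  have e1 : h 2 = g 2 := by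
    rcases I h hh g hg with h1 | h1 | h1
    · exact absurd h1 hh0
    · exact absurd h1 hh1
    · exact h1
  have e2 : h' 1 = g 1 := by
    rcases I h' hh' g hg with h1 | h1 | h1
    · exact absurd h1 hh'0
    · exact h1
    · exact absurd h1 hh'2
  have e3 : h'' 0 = g 0 := by
    rcases I h'' hh'' g hg with h1 | h1 | h1
    · exact h1
    · exact absurd h1 hh''1
    · exact absurd h1 hh''2
  have e4 : h' 0 = h 0 := by
    rcases I h hh h' hh' with h1 | h1 | h1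
    · exact h1.symm
    · exact absurd (h1.trans e2) hh1
    · exact absurd (h1.symm.trans e1) hh'2
  have e5 : h'' 1 = h 1 := by
    rcases I h hh h'' hh'' with h1 | h1 | h1
    · exact absurd (h1.trans e3) hh0
    · exact h1.symm
    · exact absurd (h1.symm.trans e1) hh''2
  have e6 : h'' 2 = h' 2 := by
    rcases I h' hh' h'' hh'' with h1 | h1 | h1
    · exact absurd (h1.trans e3) hh'0
    · exact absurd (h1.symm.trans e2) hh''1
    · exact h1.symm
  -- every side has two vertices only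
  have hall : ∀ e ∈ E, (e 0 = g 0 ∨ e 0 = h 0) ∧ (e 1 = g 1 ∨ e 1 = h 1) ∧
      (e 2 = g 2 ∨ e 2 = h' 2) := by
    intro e he
    have i1 := I e he g hg
    have i2 := I e he h hh
    have i3 := I e he h' hh'
    have i4 := I e he h'' hh''
    rw [e1] at i2
    rw [e4, e2] at i3
    rw [e3, e5, e6] at i4
    have n0 : ¬ (e 0 = g 0 ∧ e 0 = h 0) := fun x => hh0 (x.2.symm.trans x.1)
    have n1 : ¬ (e 1 = g 1 ∧ e 1 = h 1) := fun x => hh1 (x.2.symm.trans x.1)
    have n2 : ¬ (e 2 = g 2 ∧ e 2 = h' 2) := fun x => hh'2 (x.2.symm.trans x.1)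
    exact prop_aux₁ _ _ _ _ _ _ i1 i2 i3 i4 n0 n1 n2
  have hs : ∀ i, ∃ v, side v = i ∧ v ∉ C₀ := hC₀.noside
  have c0 : ¬ (g 0 ∈ C₀ ∧ h 0 ∈ C₀) := by
    rintro ⟨x, y⟩
    obtain ⟨v, hv, hvC⟩ := hs 0
    obtain ⟨e, he, hev⟩ := H.mem v
    rw [hv] at hev
    rcases (hall e he).1 with h1 | h1
    · exact hvC (by rw [← hev, h1]; exact x)
    · exact hvC (by rw [← hev, h1]; exact y)
  have c1 : ¬ (g 1 ∈ C₀ ∧ h 1 ∈ C₀) := by
    rintro ⟨x, y⟩
    obtain ⟨v, hv, hvC⟩ := hs 1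
    obtain ⟨e, he, hev⟩ := H.mem v
    rw [hv] at hev
    rcases (hall e he).2.1 with h1 | h1
    · exact hvC (by rw [← hev, h1]; exact x)
    · exact hvC (by rw [← hev, h1]; exact y)
  have c2 : ¬ (g 2 ∈ C₀ ∧ h' 2 ∈ C₀) := by
    rintro ⟨x, y⟩
    obtain ⟨v, hv, hvC⟩ := hs 2
    obtain ⟨e, he, hev⟩ := H.mem v
    rw [hv] at hev
    rcases (hall e he).2.2 with h1 | h1
    · exact hvC (by rw [← hev, h1]; exact x)
    · exact hvC (by rw [← hev, h1]; exact y)
  have cov : ∀ e ∈ E, e 0 ∈ C₀ ∨ e 1 ∈ C₀ ∨ e 2 ∈ C₀ := by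
    intro e he
    obtain ⟨i, hi⟩ := hC₀.cover e he
    fin_cases i
    · exact Or.inl hi
    · exact Or.inr (Or.inl hi)
    · exact Or.inr (Or.inr hi)
  have noe : ∀ e ∈ E, ¬ (e 0 ∈ C₀ ∧ e 1 ∈ C₀ ∧ e 2 ∈ C₀) := by
    rintro e he ⟨x, y, z⟩
    obtain ⟨i, hi⟩ := hC₀.noedge e he
    fin_cases i
    · exact hi x
    · exact hi y
    · exact hi z
  have k1 := cov g hg
  have k2 := cov h hh
  have k3 := cov h' hh'
  have k4 := cov h'' hh''
  have l1 := noe g hg
  have l2 := noe h hh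
  have l3 := noe h' hh'
  have l4 := noe h'' hh''
  rw [e1] at k2 l2
  rw [e4, e2] at k3 l3
  rw [e3, e5, e6] at k4 l4
  exact prop_aux₂ _ _ _ _ _ _ k1 k2 k3 k4 c0 c1 c2 l1 l2 l3 l4

open RPartiteHypergraph

/-- The upper bound for hypergraphs all of whose sides have at least two vertices. -/
theorem upper (r : ℕ) (hr : 3 ≤ r) (G : RPartiteHypergraph r) (hI : G.Intersecting)
    (h2 : ∀ i, 2 ≤ {v | G.side v = i}.ncard) (hC : ∃ C, G.IsNontrivialCover C) :
    ∃ C, G.IsNontrivialCover C ∧ C.card ≤ if r = 4 then 5 else 2 * r - 4 := by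
  classical
  have hfin := G.finite
  have := Fintype.ofFinite G.V
  -- edges as functions
  have hpt : ∀ e : G.edges, ∀ i, ∃ v, v ∈ e.1 ∧ G.side v = i := fun e i =>
    (G.edge_side e.1 e.2 i).exists
  choose p hp1 hp2 using hpt
  let E : Finset (Fin r → G.V) := univ.image p
  have hEmem : ∀ g, g ∈ E ↔ ∃ e : G.edges, p e = g := by
    intro g
    simp [E]
  have hpe : ∀ (e : G.edges) (v : G.V), v ∈ e.1 ↔ p e (G.side v) = v := by
    intro e v
    constructor
    · intro hv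
      exact (G.edge_side e.1 e.2 (G.side v)).unique ⟨hp1 _ _, hp2 _ _⟩ ⟨hv, rfl⟩
    · intro hv
      rw [← hv]
      exact hp1 _ _
  have H : Hyp G.side E := by
    refine ⟨?_, ?_, ?_, ?_, ?_⟩
    · intro g hg i
      obtain ⟨e, rfl⟩ := (hEmem g).1 hg
      exact hp2 e i
    · intro v
      obtain ⟨e, he, hve⟩ := G.mem_edge v
      exact ⟨_, (hEmem _).2 ⟨⟨e, he⟩, rfl⟩, (hpe ⟨e, he⟩ v).1 hve⟩
    · intro g hg g' hg'
      obtain ⟨e, rfl⟩ := (hEmem g).1 hg
      obtain ⟨e', rfl⟩ := (hEmem g').1 hg'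
      obtain ⟨v, hv, hv'⟩ := hI e.1 e.2 e'.1 e'.2
      exact ⟨G.side v, ((hpe e v).1 hv).trans ((hpe e' v).1 hv').symm⟩
    · intro v
      have h := h2 (G.side v)
      have h' : 1 < {w | G.side w = G.side v}.ncard := by omega
      obtain ⟨w, hw, hwv⟩ := Set.exists_ne_of_one_lt_ncard h' v
      exact ⟨w, hw, hwv⟩
    · intro i
      have h := h2 i
      obtain ⟨w, hw⟩ := Set.nonempty_of_ncard_ne_zero (by omega : {v | G.side v = i}.ncard ≠ 0)
      exact ⟨w, hw⟩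
  have key : ∀ C : Finset G.V, G.IsNontrivialCover C ↔ NT G.side E C := by
    intro C
    constructor
    · rintro ⟨h1, h3, h4⟩
      refine ⟨?_, ?_, ?_⟩
      · intro g hg
        obtain ⟨e, rfl⟩ := (hEmem g).1 hg
        obtain ⟨v, hvC, hve⟩ := h1 e.1 e.2
        exact ⟨G.side v, by rw [(hpe e v).1 hve]; exact hvC⟩
      · intro g hg
        obtain ⟨e, rfl⟩ := (hEmem g).1 hg
        have h5 := h3 e.1 e.2
        rw [Finset.not_subset] at h5
        obtain ⟨v, hve, hvC⟩ := h5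
        exact ⟨G.side v, by rw [(hpe e v).1 hve]; exact hvC⟩
      · intro i
        have h5 := h4 i
        rw [Set.not_subset] at h5
        obtain ⟨v, hv, hvC⟩ := h5
        exact ⟨v, hv, fun h => hvC (mem_coe.2 h)⟩
    · rintro ⟨h1, h3, h4⟩
      refine ⟨?_, ?_, ?_⟩
      · intro e he
        obtain ⟨i, hi⟩ := h1 _ ((hEmem _).2 ⟨⟨e, he⟩, rfl⟩)
        exact ⟨_, hi, hp1 ⟨e, he⟩ i⟩
      · intro e he hsub
        obtain ⟨i, hi⟩ := h3 _ ((hEmem _).2 ⟨⟨e, he⟩, rfl⟩)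
        exact hi (hsub (hp1 ⟨e, he⟩ i))
      · intro i hsub
        obtain ⟨v, hv, hvC⟩ := h4 i
        exact hvC (mem_coe.1 (hsub hv))
  obtain ⟨C₀, hC₀⟩ := hC
  rw [key] at hC₀
  rcases Nat.lt_or_ge r 4 with h | h
  · have hr3 : r = 3 := by omega
    subst hr3
    obtain ⟨C, hC, hCc⟩ := bound_three H hC₀
    exact ⟨C, (key C).2 hC, by simpa using hCc⟩
  · rcases Nat.eq_or_lt_of_le h with h | h
    · obtain ⟨C, hC, hCc⟩ := bound_four h.symm H hC₀
      exact ⟨C, (key C).2 hC, by rw [if_pos h.symm]; exact hCc⟩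
    · obtain ⟨C, hC, hCc⟩ := bound_five h H hC₀ hfin
      exact ⟨C, (key C).2 hC, by rw [if_neg (by omega)]; exact hCc⟩

end Pool.Agent.Lib.MP_2c613a_co
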