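import Pool.Agent.Lib.MP_2c613a_co.Defs

set_option autoImplicit false

/-!
# The upper bound, in terms of functions
-/

namespace Pool.Agent.Lib.MP_2c613a_co

open Finset

/-- Hypotheses on an `r`-partite intersecting hypergraph, edges being functions. -/
structure Hyp {r : ℕ} {V : Type} (side : V → Fin r) (E : Finset (Fin r → V)) : Prop where
  side_eq : ∀ g ∈ E, ∀ i, side (g i) = i
  mem : ∀ v, ∃ g ∈ E, g (side v) = v
  inter : ∀ g ∈ E, ∀ g' ∈ E, ∃ i, g i = g' i
  two : ∀ v, ∃ w, side w = side v ∧ w ≠ v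
  ne : ∀ i, ∃ v, side v = i

/-- Non-trivial covers. -/
structure NT {r : ℕ} {V : Type} (side : V → Fin r) (E : Finset (Fin r → V)) (C : Finset V) :
    Prop where
  cover : ∀ g ∈ E, ∃ i, g i ∈ C
  noedge : ∀ g ∈ E, ∃ i, g i ∉ C
  noside : ∀ i, ∃ v, side v = i ∧ v ∉ C

/-- The side `i` has at least three vertices. -/
def Big {r : ℕ} {V : Type} (side : V → Fin r) (i : Fin r) : Prop :=
  ∀ a b, ∃ v, side v = i ∧ v ≠ a ∧ v ≠ b

variable {r : ℕ} {V : Type} {side : V → Fin r} {E : Finset (Fin r → V)}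

theorem NT.subset {C C' : Finset V} (h : NT side E C) (hC : C' ⊆ C)
    (hcov : ∀ g ∈ E, ∃ i, g i ∈ C') : NT side E C' :=
  ⟨hcov, fun g hg => let ⟨i, hi⟩ := h.noedge g hg; ⟨i, fun h' => hi (hC h')⟩,
    fun i => let ⟨v, hv, hv'⟩ := h.noside i; ⟨v, hv, fun h' => hv' (hC h')⟩⟩

variable [DecidableEq V]

/-- The set of indices where two edges agree. -/
def agree (g g' : Fin r → V) : Finset (Fin r) := univ.filter fun j => g j = g' j

theorem mem_agree {g g' : Fin r → V} {j : Fin r} : j ∈ agree g g' ↔ g j = g' j := by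
  simp [agree]

/-- The cover `(g ∪ g') \ V_i`. -/
def two (g g' : Fin r → V) (i : Fin r) : Finset V :=
  (univ.erase i).image g ∪ (univ.erase i).image g'

theorem mem_two {g g' : Fin r → V} {i : Fin r} {v : V} :
    v ∈ two g g' i ↔ ∃ j, j ≠ i ∧ (g j = v ∨ g' j = v) := by
  simp only [two, mem_union, mem_image, mem_erase, mem_univ, and_true]
  constructor
  · rintro (⟨j, hj, rfl⟩ | ⟨j, hj, rfl⟩)
    · exact ⟨j, hj, Or.inl rfl⟩
    · exact ⟨j, hj, Or.inr rfl⟩
  · rintro ⟨j, hj, rfl | rfl⟩
    · exact Or.inl ⟨j, hj, rfl⟩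
    · exact Or.inr ⟨j, hj, rfl⟩

theorem card_two {g g' : Fin r → V} {i : Fin r} (hi : g i ≠ g' i) :
    (two g g' i).card + (agree g g').card ≤ 2 * (r - 1) := by
  have h1 : two g g' i ⊆ (univ.erase i).image g ∪ ((univ.erase i) \ agree g g').image g' := by
    intro v hv
    rw [mem_two] at hv
    obtain ⟨j, hj, hv⟩ := hv
    rw [mem_union]
    by_cases ha : j ∈ agree g g'
    · left
      rw [mem_agree] at ha
      rcases hv with rfl | rfl
      · exact mem_image_of_mem _ (mem_erase.2 ⟨hj, mem_univ _⟩)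
      · rw [← ha]
        exact mem_image_of_mem _ (mem_erase.2 ⟨hj, mem_univ _⟩)
    · rcases hv with rfl | rfl
      · left
        exact mem_image_of_mem _ (mem_erase.2 ⟨hj, mem_univ _⟩)
      · right
        exact mem_image_of_mem _ (mem_sdiff.2 ⟨mem_erase.2 ⟨hj, mem_univ _⟩, ha⟩)
  have hsub : agree g g' ⊆ univ.erase i := by
    intro j hj
    rw [mem_agree] at hj
    refine mem_erase.2 ⟨?_, mem_univ _⟩
    rintro rfl
    exact hi hj
  have h2 := card_le_card h1
  have h3 := card_union_le ((univ.erase i).image g) (((univ.erase i) \ agree g g').image g')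
  have h4 : ((univ.erase i).image g).card ≤ r - 1 := by
    refine card_image_le.trans ?_
    rw [card_erase_of_mem (mem_univ _), card_univ, Fintype.card_fin]
  have h5 : (((univ.erase i) \ agree g g').image g').card ≤ r - 1 - (agree g g').card := by
    refine card_image_le.trans ?_
    rw [card_sdiff_of_subset hsub, card_erase_of_mem (mem_univ _), card_univ, Fintype.card_fin]
  have h6 : (agree g g').card ≤ r - 1 := by
    refine (card_le_card hsub).trans ?_
    rw [card_erase_of_mem (mem_univ _), card_univ, Fintype.card_fin]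
  omega

theorem nt_two (H : Hyp side E) {g g' : Fin r → V} (hg : g ∈ E) (hg' : g' ∈ E) {i : Fin r}
    (hi : g i ≠ g' i) (hv : ∀ k, k ≠ i → ∃ v, side v = k ∧ v ≠ g k ∧ v ≠ g' k) :
    NT side E (two g g' i) := by
  have key : ∀ v, v ∈ two g g' i → side v ≠ i := by
    intro v hv
    obtain ⟨j, hj, rfl | rfl⟩ := mem_two.1 hv
    · rw [H.side_eq g hg]; exact hj
    · rw [H.side_eq g' hg']; exact hj
  refine ⟨fun e he => ?_, fun e he => ⟨i, fun h => key _ h (H.side_eq e he i)⟩, fun k => ?_⟩
  · obtain ⟨j, hj⟩ := H.inter e he g hg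
    obtain ⟨j', hj'⟩ := H.inter e he g' hg'
    by_cases hji : j = i
    · by_cases hji' : j' = i
      · exfalso
        apply hi
        rw [← hji, ← hj, hji, ← hji', hj']
      · exact ⟨j', mem_two.2 ⟨j', hji', Or.inr hj'.symm⟩⟩
    · exact ⟨j, mem_two.2 ⟨j, hji, Or.inl hj.symm⟩⟩
  · by_cases hk : k = i
    · obtain ⟨v, hv⟩ := H.ne k
      exact ⟨v, hv, fun h => key v h (hv.trans hk)⟩
    · obtain ⟨v, hvk, h1, h2⟩ := hv k hk
      refine ⟨v, hvk, fun h => ?_⟩
      obtain ⟨j, hj, rfl | rfl⟩ := mem_two.1 h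
      · rw [H.side_eq g hg] at hvk
        exact h1 (by rw [hvk])
      · rw [H.side_eq g' hg'] at hvk
        exact h2 (by rw [hvk])

/-- A vertex cover with at most `|E|` vertices. -/
theorem nt_small {C : Finset V} (hC : NT side E C) :
    ∃ C', NT side E C' ∧ C'.card ≤ E.card := by
  choose j hj using fun g : E => hC.cover g.1 g.2
  refine ⟨univ.image fun g : E => g.1 (j g), hC.subset ?_ fun g hg =>
    ⟨j ⟨g, hg⟩, mem_image_of_mem (fun g : E => g.1 (j g)) (mem_univ (⟨g, hg⟩ : E))⟩,
    card_image_le.trans (by rw [card_univ, Fintype.card_coe])⟩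
  intro v hv
  obtain ⟨g, -, rfl⟩ := mem_image.1 hv
  exact hj g

/-- Case 2: any two distinct edges differ in at least two of the sides of size two. -/
theorem nt_case2 (H : Hyp side E) {K : Finset (Fin r)} (hK : K.Nonempty)
    (hK2 : ∀ k ∈ K, ¬ Big side k)
    (hdist : ∀ g ∈ E, ∀ g' ∈ E, g ≠ g' → ∃ k ∈ K, ∃ l ∈ K, k ≠ l ∧ g k ≠ g' k ∧ g l ≠ g' l)
    {C₀ : Finset V} (hC₀ : NT side E C₀) : ∃ C, NT side E C ∧ C.card ≤ r := by
  classical
  -- the other vertex on a side
  choose o ho1 ho2 using H.two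
  -- a side of size two consists of a vertex and the other one
  have htwo : ∀ k ∈ K, ∀ v w, side v = k → side w = k → w = v ∨ w = o v := by
    intro k hk v w hv hw
    have hnb := hK2 k hk
    simp only [Big, not_forall, not_exists, not_and, not_not] at hnb
    obtain ⟨a, b, hab⟩ := hnb
    have key : ∀ x, side x = k → x = a ∨ x = b := fun x hx => by
      by_cases h : x = a
      · exact Or.inl h
      · exact Or.inr (hab x hx h)
    have hov := key (o v) ((ho1 v).trans hv)
    have h1 := key v hv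
    have h2 := key w hw
    have h3 := ho2 v
    rcases h1 with h1 | h1 <;> rcases h2 with h2 | h2 <;> rcases hov with h4 | h4
    · left; rw [h1, h2]
    · left; rw [h1, h2]
    · exact absurd (h4.trans h1.symm) h3
    · right; rw [h2, h4]
    · right; rw [h2, h4]
    · exact absurd (h4.trans h1.symm) h3
    · left; rw [h1, h2]
    · left; rw [h1, h2]
  -- the cover attached to an edge `g` and an index `k`
  let c : (Fin r → V) → Fin r → Fin r → V := fun g k l => if l = k then g l else o (g l)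
  have hcside : ∀ g ∈ E, ∀ k l, side (c g k l) = l := by
    intro g hg k l
    simp only [c]
    split_ifs
    · exact H.side_eq g hg l
    · rw [ho1]; exact H.side_eq g hg l
  have hcov : ∀ g ∈ E, ∀ k ∈ K, ∀ e ∈ E, ∃ l, e l ∈ K.image (c g k) := by
    intro g hg k hk e he
    by_contra hno
    push Not at hno
    have h1 : ∀ l ∈ K, e l ≠ c g k l := fun l hl h =>
      hno l (h ▸ mem_image_of_mem _ hl)
    have h2 : e ≠ g := by
      rintro rfl
      exact h1 k hk (by simp [c])
    obtain ⟨a, ha, b, hb, hab, hea, heb⟩ := hdist e he g hg h2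
    have h3 : ∀ l ∈ K, l ≠ k → e l = g l := by
      intro l hl hlk
      have h4 := h1 l hl
      simp only [c, if_neg hlk] at h4
      exact (htwo l hl (g l) (e l) (H.side_eq g hg l) (H.side_eq e he l)).resolve_right h4
    by_cases hak : a = k
    · by_cases hbk : b = k
      · exact hab (hak.trans hbk.symm)
      · exact heb (h3 b hb hbk)
    · exact hea (h3 a ha hak)
  have hnoside : ∀ g ∈ E, ∀ k i, ∃ v, side v = i ∧ v ∉ K.image (c g k) := by
    intro g hg k i
    refine ⟨o (c g k i), (ho1 _).trans (hcside g hg k i), fun h => ?_⟩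
    obtain ⟨l, -, hl⟩ := mem_image.1 h
    have h1 : l = i := by
      have := congrArg side hl
      rw [hcside g hg, ho1, hcside g hg] at this
      exact this
    subst h1
    exact ho2 _ hl.symm
  have hEne : E.Nonempty := by
    obtain ⟨k, -⟩ := hK
    obtain ⟨v, -⟩ := H.ne k
    obtain ⟨g, hg, -⟩ := H.mem v
    exact ⟨g, hg⟩
  have hKr : K.card ≤ r := by
    have := card_le_univ K
    rwa [Fintype.card_fin] at this
  by_cases hKu : K = univ
  · -- all sides have size two
    by_cases hex : ∃ g ∈ E, ∃ k, c g k ∉ E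
    · obtain ⟨g, hg, k, hck⟩ := hex
      have hk : k ∈ K := hKu ▸ mem_univ k
      refine ⟨K.image (c g k), ⟨hcov g hg k hk, fun e he => ?_, hnoside g hg k⟩,
        card_image_le.trans hKr⟩
      by_contra hno
      push Not at hno
      apply hck
      have : e = c g k := by
        funext l
        obtain ⟨l', -, hl'⟩ := mem_image.1 (hno l)
        have h1 : l' = l := by
          have := congrArg side hl'
          rwa [hcside g hg, H.side_eq e he] at this
        rw [← hl', h1]
      rwa [← this]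
    · push Not at hex
      exfalso
      -- flipping two coordinates
      have hoo : ∀ v, o (o v) = v := by
        intro v
        have := htwo (side v) (hKu ▸ mem_univ _) (o v) v (ho1 v) rfl
        rcases this with h | h
        · exact absurd h.symm (ho2 v)
        · exact h.symm
      have hflip : ∀ g ∈ E, ∀ k l, k ≠ l →
          (fun x => if x = k ∨ x = l then o (g x) else g x) ∈ E := by
        intro g hg k l hkl
        have h1 := hex _ (hex g hg k) l
        convert h1 using 1
        funext x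
        simp only [c]
        by_cases hxk : x = k
        · have hxl : x ≠ l := fun h => hkl (hxk.symm.trans h)
          simp [hxk, hxk ▸ hxl]
        · by_cases hxl : x = l
          · simp [hxl, hxl ▸ hxk]
          · simp [hxk, hxl, hoo]
      -- minimize the number of vertices in `C₀`
      obtain ⟨g, hg, hmin⟩ := E.exists_min_image
        (fun g => (univ.filter fun l => g l ∈ C₀).card) hEne
      have hpos : 0 < (univ.filter fun l => g l ∈ C₀).card := by
        obtain ⟨l, hl⟩ := hC₀.cover g hg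
        exact card_pos.2 ⟨l, by simp [hl]⟩
      -- `C₀` does not contain both vertices of a side
      have hC₀2 : ∀ v, v ∈ C₀ → o v ∉ C₀ := by
        intro v hv hov
        obtain ⟨w, hw, hwC⟩ := hC₀.noside (side v)
        rcases htwo (side v) (hKu ▸ mem_univ _) v w rfl hw with rfl | rfl
        · exact hwC hv
        · exact hwC hov
      obtain ⟨k, hk⟩ := card_pos.1 hpos
      simp only [mem_filter, mem_univ, true_and] at hk
      -- flipping `k` and `l` is impossible if `l ≠ k` and `o (g l) ∉ C₀`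
      have hl : ∀ l, l ≠ k → o (g l) ∈ C₀ := by
        intro l hlk
        by_contra hol
        have h1 := hmin _ (hflip g hg k l (Ne.symm hlk))
        have h2 : (univ.filter fun x => (if x = k ∨ x = l then o (g x) else g x) ∈ C₀) ⊆
            (univ.filter fun l => g l ∈ C₀).erase k := by
          intro x hx
          simp only [mem_filter, mem_univ, true_and] at hx
          rw [mem_erase]
          by_cases hxk : x = k
          · subst hxk
            simp only [true_or, if_true] at hx
            exact absurd hx (hC₀2 _ hk)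
          · refine ⟨hxk, ?_⟩
            by_cases hxl : x = l
            · subst hxl
              simp only [or_true, if_true] at hx
              exact absurd hx hol
            · simp only [hxk, hxl, or_self, if_false] at hx
              simp [hx]
        have h3 := card_le_card h2
        rw [card_erase_of_mem (by simp [hk])] at h3
        have h4 := h1.trans h3
        omega
      obtain ⟨x, hx⟩ := hC₀.noedge _ (hex g hg k)
      apply hx
      simp only [c]
      split_ifs with h
      · rw [h]; exact hk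
      · exact hl x h
  · obtain ⟨g, hg⟩ := hEne
    obtain ⟨k, hk⟩ := hK
    refine ⟨K.image (c g k), ⟨hcov g hg k hk, fun e he => ?_, hnoside g hg k⟩,
      card_image_le.trans hKr⟩
    obtain ⟨i, hi⟩ : ∃ i, i ∉ K := by
      by_contra hno
      push Not at hno
      exact hKu (eq_univ_iff_forall.2 hno)
    refine ⟨i, fun h => ?_⟩
    obtain ⟨l, hl, hle⟩ := mem_image.1 h
    have := congrArg side hle
    rw [hcside g hg, H.side_eq e he] at this
    exact hi (this ▸ hl)

/-- The grid argument: if all sides but `i` have at least three vertices and `r ≥ 5`, then there is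
a non-trivial cover with at most `2 r - 4` vertices. -/
theorem nt_grid (hr : 3 ≤ r) (H : Hyp side E) (i : Fin r) (hbig : ∀ k, k ≠ i → Big side k)
    (hsmall : ¬ ∃ C, NT side E C ∧ C.card ≤ 2 * r - 4) :
    (∀ u, side u = i → ∀ j, j ≠ i → ∃ S : Finset V, (∀ v, v ∈ S ↔ side v = j) ∧ S.card = r - 1) ∧
    (∀ u, side u = i → (E.filter fun g => g i = u).card = r - 1) ∧
    (∀ g ∈ E, ∀ g' ∈ E, g ≠ g' → (agree g g').card = 1) ∧
    (∀ u v, side u = i → side v ≠ i → ∃ g ∈ E, g i = u ∧ g (side v) = v) := by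
  classical
  -- another vertex on the same side
  have hother : ∀ (v : V) (k : Fin r), side v = k → ∃ w, side w = k ∧ w ≠ v := by
    rintro v k rfl
    exact H.two v
  -- the agreement set of two distinct edges is a single index
  have F1 : ∀ g ∈ E, ∀ g' ∈ E, g ≠ g' → (agree g g').card = 1 := by
    intro g hg g' hg' hne
    have hpos : 0 < (agree g g').card := by
      obtain ⟨j, hj⟩ := H.inter g hg g' hg'
      exact card_pos.2 ⟨j, mem_agree.2 hj⟩
    obtain ⟨j, hj, hjv⟩ : ∃ j, g j ≠ g' j ∧ ∀ k, k ≠ j → ∃ v, side v = k ∧ v ≠ g k ∧ v ≠ g' k := by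
      by_cases hi : g i = g' i
      · obtain ⟨j, hj⟩ := Function.ne_iff.1 hne
        refine ⟨j, hj, fun k hk => ?_⟩
        by_cases hki : k = i
        · obtain ⟨w, hw1, hw2⟩ := hother (g k) k (H.side_eq g hg k)
          exact ⟨w, hw1, hw2, by rw [hki] at hw2 ⊢; rwa [← hi]⟩
        · exact hbig k hki _ _
      · exact ⟨i, hi, fun k hk => hbig k hk _ _⟩
    have h1 := nt_two H hg hg' hj hjv
    have h2 := card_two hj
    by_contra hne1
    apply hsmall
    exact ⟨_, h1, by omega⟩
  have F1' : ∀ g ∈ E, ∀ g' ∈ E, g ≠ g' → ∀ j k, g j = g' j → g k = g' k → j = k := by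
    intro g hg g' hg' hne j k hj hk
    exact card_le_one.1 (F1 g hg g' hg' hne).le j (mem_agree.2 hj) k (mem_agree.2 hk)
  -- joining a vertex of side `i` and another one
  have F2 : ∀ u v, side u = i → side v ≠ i → ∃ g ∈ E, g i = u ∧ g (side v) = v := by
    intro u v hu hv
    obtain ⟨g, hg, hgv⟩ := H.mem v
    by_cases hgu : g i = u
    · exact ⟨g, hg, hgu, hgv⟩
    obtain ⟨g', hg', hg'u⟩ := H.mem u
    rw [hu] at hg'u
    by_cases hg'v : g' (side v) = v
    · exact ⟨g', hg', hg'u, hg'v⟩
    have hi : g i ≠ g' i := by rw [hg'u]; exact hgu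
    have h1 := nt_two H hg hg' hi (fun k hk => hbig k hk _ _)
    have h2 := card_two hi
    have hne : g ≠ g' := fun h => hi (by rw [h])
    rw [F1 g hg g' hg' hne] at h2
    by_contra hno
    push Not at hno
    have hvC : v ∈ two g g' i := mem_two.2 ⟨side v, hv, Or.inl hgv⟩
    apply hsmall
    refine ⟨(two g g' i).erase v, h1.subset (erase_subset _ _) fun e he => ?_, ?_⟩
    · obtain ⟨k, hk⟩ := h1.cover e he
      by_cases hkv : e k = v
      · -- `e` meets `g'` somewhere
        obtain ⟨l, hl⟩ := H.inter e he g' hg'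
        have hk' : k = side v := by rw [← hkv, H.side_eq e he]
        by_cases hli : l = i
        · exfalso
          rw [hli] at hl
          exact hno e he (hl.trans hg'u) (by rw [← hk']; exact hkv)
        · refine ⟨l, mem_erase.2 ⟨?_, mem_two.2 ⟨l, hli, Or.inr hl.symm⟩⟩⟩
          intro hlv
          have : l = side v := by rw [← hlv, H.side_eq e he]
          apply hg'v
          rw [← this, ← hl, hlv]
      · exact ⟨k, mem_erase.2 ⟨hkv, hk⟩⟩
    · rw [card_erase_of_mem hvC]
      omega
  -- the star at `u` is in bijection with any other side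
  have hstar : ∀ u, side u = i → ∀ j, j ≠ i → ∀ v,
      v ∈ (E.filter fun g => g i = u).image (fun g => g j) ↔ side v = j := by
    intro u hu j hj v
    simp only [mem_image, mem_filter]
    constructor
    · rintro ⟨g, ⟨hg, -⟩, rfl⟩
      exact H.side_eq g hg j
    · rintro rfl
      obtain ⟨g, hg, hgu, hgv⟩ := F2 u v hu hj
      exact ⟨g, ⟨hg, hgu⟩, hgv⟩
  have hstar_inj : ∀ u, ∀ j, j ≠ i →
      Set.InjOn (fun g : Fin r → V => g j) (E.filter fun g => g i = u) := by
    intro u j hj g hg g' hg' h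
    simp only [coe_filter, Set.mem_ofPred_eq] at hg hg'
    by_contra hne
    exact hj (F1' g hg.1 g' hg'.1 hne j i h (hg.2.trans hg'.2.symm))
  -- the star at `u'` is in bijection with the indices different from `i`
  have hcard : ∀ u, side u = i → (E.filter fun g => g i = u).card = r - 1 := by
    intro u hu
    obtain ⟨u', hu', hne⟩ := hother u i hu
    obtain ⟨g, hg, hgu'⟩ := H.mem u'
    rw [hu'] at hgu'
    have hdiff : ∀ h ∈ E.filter fun g => g i = u, g ≠ h := by
      intro h hh he
      rw [mem_filter] at hh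
      apply hne
      rw [← hgu', he, hh.2]
    have hex : ∀ h ∈ E.filter fun g => g i = u, ∃ j, g j = h j := fun h hh =>
      H.inter g hg h (mem_filter.1 hh).1
    have hc : (univ.erase i).card = r - 1 := by
      rw [card_erase_of_mem (mem_univ _), card_univ, Fintype.card_fin]
    rw [← hc]
    refine card_bij (fun h hh => (hex h hh).choose) ?_ ?_ ?_
    · intro h hh
      refine mem_erase.2 ⟨fun hi => ?_, mem_univ _⟩
      have h1 := (hex h hh).choose_spec
      rw [hi, hgu', (mem_filter.1 hh).2] at h1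
      exact hne h1
    · intro h hh h' hh' heq
      have h1 := (hex h hh).choose_spec
      have h2 := (hex h' hh').choose_spec
      rw [heq, h2] at h1
      by_contra hne'
      have hj : (hex h' hh').choose ≠ i := by
        intro hi
        rw [hi, hgu', (mem_filter.1 hh').2] at h2
        exact hne h2
      exact hne' (hstar_inj u _ hj hh hh' h1.symm)
    · intro j hj
      have hj' : j ≠ i := (mem_erase.1 hj).1
      obtain ⟨h, hh⟩ := mem_image.1 ((hstar u hu j hj' (g j)).2 (H.side_eq g hg j))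
      refine ⟨h, hh.1, ?_⟩
      have h1 := (hex h hh.1).choose_spec
      exact F1' g hg h (mem_filter.1 hh.1).1 (hdiff h hh.1) _ _ h1 hh.2.symm
  refine ⟨fun u hu j hj => ⟨_, hstar u hu j hj, ?_⟩, hcard, F1, F2⟩
  rw [card_image_of_injOn (hstar_inj u j hj), hcard u hu]

/-- Extending three prescribed values to a bijection. -/
theorem exists_bij {α : Type} [DecidableEq α] {A B : Finset α} (hAB : A.card = B.card)
    {a₁ a₂ a₃ b₁ b₂ b₃ : α} (ha₁ : a₁ ∈ A) (ha₂ : a₂ ∈ A) (ha₃ : a₃ ∈ A)
    (hb₁ : b₁ ∈ B) (hb₂ : b₂ ∈ B) (hb₃ : b₃ ∈ B) (h12 : a₁ ≠ a₂) (h13 : a₁ ≠ a₃) (h23 : a₂ ≠ a₃)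
    (h12' : b₁ ≠ b₂) (h13' : b₁ ≠ b₃) (h23' : b₂ ≠ b₃) :
    ∃ φ : A ≃ B, (φ ⟨a₁, ha₁⟩ : α) = b₁ ∧ (φ ⟨a₂, ha₂⟩ : α) = b₂ ∧ (φ ⟨a₃, ha₃⟩ : α) = b₃ := by
  classical
  let F : A → α := fun x => if (x : α) = a₁ then b₁ else if (x : α) = a₂ then b₂ else b₃
  obtain ⟨φ, hφ⟩ := Finset.exists_equiv_extend_of_card_eq (α := A) (t := B)
    (by rw [Fintype.card_coe, hAB]) (s := {⟨a₁, ha₁⟩, ⟨a₂, ha₂⟩, ⟨a₃, ha₃⟩}) (f := F)
    (by
      intro y hy
      rw [mem_image] at hy
      obtain ⟨x, -, rfl⟩ := hy
      simp only [F]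
      split_ifs <;> assumption)
    (by
      intro x hx y hy hxy
      simp only [coe_insert, coe_singleton, Set.mem_insert_iff, Set.mem_singleton_iff] at hx hy
      rcases hx with rfl | rfl | rfl <;> rcases hy with rfl | rfl | rfl <;>
        simp [F, h12.symm, h13.symm, h23.symm, h12', h12'.symm, h13', h13'.symm,
          h23', h23'.symm] at hxy ⊢)
  refine ⟨φ, ?_, ?_, ?_⟩
  · rw [hφ _ (by simp)]
    simp [F]
  · rw [hφ _ (by simp)]
    simp [F, h12.symm]
  · rw [hφ _ (by simp)]
    simp [F, h13.symm, h23.symm]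

/-- The cover in the grid case. -/
theorem nt_grid_cover (hr : 5 ≤ r) (H : Hyp side E) (i : Fin r)
    (hbig : ∀ k, k ≠ i → Big side k)
    (hside : ∃ S : Finset V, (∀ v, v ∈ S ↔ side v = i) ∧ S.card ≤ r - 1) :
    ∃ C, NT side E C ∧ C.card ≤ 2 * r - 4 := by
  classical
  by_contra hsmall
  obtain ⟨G1, G2, G3, G4⟩ := nt_grid (by omega) H i hbig hsmall
  have F1' : ∀ g ∈ E, ∀ g' ∈ E, g ≠ g' → ∀ j k, g j = g' j → g k = g' k → j = k := by
    intro g hg g' hg' hne j k hj hk
    exact card_le_one.1 (G3 g hg g' hg' hne).le j (mem_agree.2 hj) k (mem_agree.2 hk)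
  obtain ⟨S, hS, hScard⟩ := hside
  -- two vertices on side `i`
  obtain ⟨u, hu⟩ := H.ne i
  obtain ⟨u', hu', huu'⟩ := H.two u
  rw [hu] at hu'
  set A := E.filter fun g => g i = u with hA
  set B := E.filter fun g => g i = u' with hB
  have hAc : A.card = r - 1 := G2 u hu
  have hBc : B.card = r - 1 := G2 u' hu'
  have hAB : ∀ g ∈ A, ∀ h ∈ B, g ≠ h := by
    rintro g hg h hh rfl
    exact huu' ((mem_filter.1 hh).2.symm.trans (mem_filter.1 hg).2)
  -- choose another side
  obtain ⟨j, hj⟩ : ∃ j : Fin r, j ≠ i := by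
    have : Nontrivial (Fin r) := Fin.nontrivial_iff_two_le.2 (by omega)
    exact exists_ne i
  -- the edge at `u'` through a vertex of side `j`
  have hjoin : ∀ v, side v = j → ∃ h ∈ B, h j = v := by
    intro v hv
    obtain ⟨h, hh, hhu, hhv⟩ := G4 u' v hu' (by rw [hv]; exact hj)
    rw [hv] at hhv
    exact ⟨h, mem_filter.2 ⟨hh, hhu⟩, hhv⟩
  obtain ⟨g₁, hg₁, g₂, hg₂, h12⟩ := one_lt_card.1 (show 1 < A.card by omega)
  obtain ⟨g₃, hg₃'⟩ : ((A.erase g₁).erase g₂).Nonempty := by
    rw [← card_pos]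
    have h1 := Finset.pred_card_le_card_erase (s := A) (a := g₁)
    have h2 := Finset.pred_card_le_card_erase (s := A.erase g₁) (a := g₂)
    omega
  simp only [mem_erase] at hg₃'
  obtain ⟨h32, h31, hg₃⟩ := hg₃'
  have hE : ∀ g ∈ A, g ∈ E := fun g hg => (mem_filter.1 hg).1
  have hEB : ∀ g ∈ B, g ∈ E := fun g hg => (mem_filter.1 hg).1
  obtain ⟨e₁, he₁, he₁j⟩ := hjoin (g₁ j) (H.side_eq _ (hE _ hg₁) j)
  obtain ⟨e₂, he₂, he₂j⟩ := hjoin (g₂ j) (H.side_eq _ (hE _ hg₂) j)
  obtain ⟨e₀, he₀, he₀j⟩ := hjoin (g₃ j) (H.side_eq _ (hE _ hg₃) j)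
  have hg12j : g₁ j ≠ g₂ j := by
    intro h
    exact hj (F1' g₁ (hE _ hg₁) g₂ (hE _ hg₂) h12 j i h
      ((mem_filter.1 hg₁).2.trans (mem_filter.1 hg₂).2.symm))
  have he12 : e₁ ≠ e₂ := by
    rintro rfl
    exact hg12j (he₁j.symm.trans he₂j)
  obtain ⟨e₃, he₃'⟩ : (((B.erase e₁).erase e₂).erase e₀).Nonempty := by
    rw [← card_pos]
    have h1 := Finset.pred_card_le_card_erase (s := B) (a := e₁)
    have h2 := Finset.pred_card_le_card_erase (s := B.erase e₁) (a := e₂)
    have h3 := Finset.pred_card_le_card_erase (s := (B.erase e₁).erase e₂) (a := e₀)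
    omega
  simp only [mem_erase] at he₃'
  obtain ⟨h30', h32', h31', he₃⟩ := he₃'
  obtain ⟨φ, hφ1, hφ2, hφ3⟩ := exists_bij (hAc.trans hBc.symm) hg₁ hg₂ hg₃ he₁ he₂ he₃ h12
    h31.symm h32.symm he12 h31'.symm h32'.symm
  -- the meeting index of `g` and `φ g`
  have hmeet : ∀ g : A, ∃ k, k ≠ i ∧ g.1 k = (φ g).1 k := by
    intro g
    obtain ⟨k, hk⟩ := H.inter g.1 (hE _ g.2) (φ g).1 (hEB _ (φ g).2)
    refine ⟨k, ?_, hk⟩
    rintro rfl
    rw [(mem_filter.1 g.2).2, (mem_filter.1 (φ g).2).2] at hk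
    exact huu' hk.symm
  choose κ hκi hκ using hmeet
  let D : Finset V := univ.image fun g : A => g.1 (κ g)
  have hDside : ∀ v ∈ D, side v ≠ i := by
    intro v hv
    obtain ⟨g, -, rfl⟩ := mem_image.1 hv
    rw [H.side_eq _ (hE _ g.2)]
    exact hκi g
  have hDcard : D.card ≤ r - 1 := by
    refine card_image_le.trans ?_
    rw [card_univ, Fintype.card_coe, hAc]
  -- three vertices of `D`
  have hκ1 : κ ⟨g₁, hg₁⟩ = j := by
    refine F1' g₁ (hE _ hg₁) e₁ (hEB _ he₁) (hAB _ hg₁ _ he₁) _ _ ?_ he₁j.symm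
    have := hκ ⟨g₁, hg₁⟩
    rwa [hφ1] at this
  have hκ2 : κ ⟨g₂, hg₂⟩ = j := by
    refine F1' g₂ (hE _ hg₂) e₂ (hEB _ he₂) (hAB _ hg₂ _ he₂) _ _ ?_ he₂j.symm
    have := hκ ⟨g₂, hg₂⟩
    rwa [hφ2] at this
  have hκ3 : κ ⟨g₃, hg₃⟩ ≠ j := by
    intro h
    have h1 := hκ ⟨g₃, hg₃⟩
    rw [hφ3, h] at h1
    apply hj
    exact F1' e₃ (hEB _ he₃) e₀ (hEB _ he₀) h30' j i (h1.symm.trans he₀j.symm)
      ((mem_filter.1 he₃).2.trans (mem_filter.1 he₀).2.symm)
  have hD1 : g₁ j ∈ D := by
    have : g₁ (κ ⟨g₁, hg₁⟩) ∈ D :=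
      mem_image_of_mem (fun g : A => g.1 (κ g)) (mem_univ (⟨g₁, hg₁⟩ : A))
    rwa [hκ1] at this
  have hD2 : g₂ j ∈ D := by
    have : g₂ (κ ⟨g₂, hg₂⟩) ∈ D :=
      mem_image_of_mem (fun g : A => g.1 (κ g)) (mem_univ (⟨g₂, hg₂⟩ : A))
    rwa [hκ2] at this
  have hD3 : g₃ (κ ⟨g₃, hg₃⟩) ∈ D :=
    mem_image_of_mem (fun g : A => g.1 (κ g)) (mem_univ (⟨g₃, hg₃⟩ : A))
  -- the cover
  let C : Finset V := ((S.erase u).erase u') ∪ D
  have hCmem : ∀ v, v ∈ C ↔ (v ≠ u' ∧ v ≠ u ∧ side v = i) ∨ v ∈ D := by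
    intro v
    simp only [C, mem_union, mem_erase, hS]
  apply hsmall
  refine ⟨C, ⟨?_, ?_, ?_⟩, ?_⟩
  · intro e he
    by_cases heu : e i = u
    · have heA : e ∈ A := mem_filter.2 ⟨he, heu⟩
      exact ⟨κ ⟨e, heA⟩, (hCmem _).2 (Or.inr
        (mem_image_of_mem (fun g : A => g.1 (κ g)) (mem_univ (⟨e, heA⟩ : A))))⟩
    · by_cases heu' : e i = u'
      · have heB : e ∈ B := mem_filter.2 ⟨he, heu'⟩
        obtain ⟨g, hg⟩ := φ.surjective ⟨e, heB⟩
        refine ⟨κ g, (hCmem _).2 (Or.inr ?_)⟩
        have h1 := hκ g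
        rw [hg] at h1
        simp only at h1
        rw [← h1]
        exact mem_image_of_mem (fun g : A => g.1 (κ g)) (mem_univ g)
      · exact ⟨i, (hCmem _).2 (Or.inl ⟨heu', heu, H.side_eq e he i⟩)⟩
  · intro e he
    by_contra hno
    push Not at hno
    have h1 : (univ.erase i).image e ⊆ D := by
      intro v hv
      obtain ⟨k, hk, rfl⟩ := mem_image.1 hv
      rcases (hCmem _).1 (hno k) with ⟨-, -, h⟩ | h
      · rw [H.side_eq e he] at h
        exact absurd h (mem_erase.1 hk).1
      · exact h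
    have hinj : Set.InjOn e (univ.erase i : Finset (Fin r)) := by
      intro k _ l _ h
      have := congrArg side h
      rwa [H.side_eq e he, H.side_eq e he] at this
    have h2 : ((univ.erase i).image e).card = r - 1 := by
      rw [card_image_of_injOn hinj, card_erase_of_mem (mem_univ _), card_univ, Fintype.card_fin]
    have h3 := eq_of_subset_of_card_le h1 (by rw [h2]; exact hDcard)
    have h4 : ∀ v ∈ D, side v = j → v = e j := by
      intro v hv hvj
      rw [← h3] at hv
      obtain ⟨k, -, rfl⟩ := mem_image.1 hv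
      rw [H.side_eq e he] at hvj
      rw [hvj]
    exact hg12j ((h4 _ hD1 (H.side_eq _ (hE _ hg₁) j)).trans
      (h4 _ hD2 (H.side_eq _ (hE _ hg₂) j)).symm)
  · intro l
    by_cases hl : l = i
    · refine ⟨u, hu.trans hl.symm, fun h => ?_⟩
      rcases (hCmem _).1 h with ⟨-, h1, -⟩ | h1
      · exact h1 rfl
      · exact hDside u h1 hu
    · by_contra hno
      push Not at hno
      obtain ⟨T, hT, hTc⟩ := G1 u hu l hl
      have h1 : T ⊆ D := by
        intro v hv
        rw [hT] at hv
        rcases (hCmem _).1 (hno v hv) with ⟨-, -, h⟩ | h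
        · exact absurd (hv.symm.trans h) hl
        · exact h
      have h2 := eq_of_subset_of_card_le h1 (by rw [hTc]; exact hDcard)
      rw [← h2, hT, H.side_eq _ (hE _ hg₁)] at hD1
      rw [← h2, hT, H.side_eq _ (hE _ hg₃)] at hD3
      exact hκ3 (hD3.trans hD1.symm)
  · have h1 : ((S.erase u).erase u').card = S.card - 1 - 1 := by
      rw [card_erase_of_mem, card_erase_of_mem ((hS u).2 hu)]
      exact mem_erase.2 ⟨huu', (hS u').2 hu'⟩
    have h2 : 2 ≤ S.card := by
      have := card_le_card (show ({u, u'} : Finset V) ⊆ S by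
        intro v hv
        simp only [mem_insert, mem_singleton] at hv
        rcases hv with rfl | rfl
        · exact (hS _).2 hu
        · exact (hS _).2 hu')
      rwa [card_pair huu'.symm] at this
    have h3 := card_union_le ((S.erase u).erase u') D
    change (((S.erase u).erase u') ∪ D).card ≤ 2 * r - 4
    omega

omit [DecidableEq V] in
/-- A side that is not big consists of at most two vertices. -/
theorem not_big {k : Fin r} (h : ¬ Big side k) : ∃ a b, ∀ v, side v = k → v = a ∨ v = b := by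
  simp only [Big, not_forall, not_exists, not_and, not_not] at h
  obtain ⟨a, b, hab⟩ := h
  refine ⟨a, b, fun v hv => ?_⟩
  by_cases hva : v = a
  · exact Or.inl hva
  · exact Or.inr (hab v hv hva)

/-- If some two distinct edges agree on all the sides of size two, then there is a cover of size
at most `2 r - 2` minus the number of indices where they agree. -/
theorem nt_of_agree (H : Hyp side E) {g g' : Fin r → V} (hg : g ∈ E) (hg' : g' ∈ E)
    {i : Fin r} (hi : g i ≠ g' i) (h : ∀ k, k ≠ i → ¬ Big side k → g k = g' k) :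
    NT side E (two g g' i) := by
  refine nt_two H hg hg' hi fun k hk => ?_
  by_cases hb : Big side k
  · exact hb _ _
  · obtain ⟨w, hw1, hw2⟩ := H.two (g k)
    rw [H.side_eq g hg] at hw1
    exact ⟨w, hw1, hw2, by rw [← h k hk hb]; exact hw2⟩

/-- The case of at least two sides of size two, `r ≥ 4`. -/
theorem nt_two_small (hr : 4 ≤ r) (H : Hyp side E) {C₀ : Finset V} (hC₀ : NT side E C₀)
    {a b : Fin r} (hab : a ≠ b) (ha : ¬ Big side a) (hb : ¬ Big side b) :
    ∃ C, NT side E C ∧ C.card ≤ 2 * r - 4 := by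
  classical
  set K : Finset (Fin r) := univ.filter fun k => ¬ Big side k with hK
  have hKm : ∀ k, k ∈ K ↔ ¬ Big side k := fun k => by simp [hK]
  have haK : a ∈ K := (hKm a).2 ha
  have hbK : b ∈ K := (hKm b).2 hb
  by_cases h1 : ∃ g ∈ E, ∃ g' ∈ E, g ≠ g' ∧ ∀ k ∈ K, g k = g' k
  · obtain ⟨g, hg, g', hg', hne, hag⟩ := h1
    obtain ⟨i, hi⟩ := Function.ne_iff.1 hne
    refine ⟨_, nt_of_agree H hg hg' hi fun k _ hk => hag k ((hKm k).2 hk), ?_⟩
    have h2 := card_two hi
    have h3 : 2 ≤ (agree g g').card := by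
      have : ({a, b} : Finset (Fin r)) ⊆ agree g g' := by
        intro k hk
        simp only [mem_insert, mem_singleton] at hk
        rw [mem_agree]
        rcases hk with rfl | rfl
        · exact hag _ haK
        · exact hag _ hbK
      have h4 := card_le_card this
      rwa [card_pair hab] at h4
    omega
  push Not at h1
  by_cases hK2 : K.card = 2
  · -- at most four edges
    obtain ⟨C, hC, hCc⟩ := nt_small hC₀
    refine ⟨C, hC, hCc.trans ?_⟩
    obtain ⟨a₁, a₂, hA⟩ := not_big ha
    obtain ⟨b₁, b₂, hB⟩ := not_big hb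
    have hKab : K = {a, b} := by
      symm
      refine eq_of_subset_of_card_le ?_ (by rw [hK2, card_pair hab])
      intro k hk
      simp only [mem_insert, mem_singleton] at hk
      rcases hk with rfl | rfl
      · exact haK
      · exact hbK
    have h2 : (E.image fun g => (g a, g b)).card = E.card := by
      refine card_image_of_injOn ?_
      intro g hg g' hg' h
      by_contra hne
      obtain ⟨k, hk, hkne⟩ := h1 g hg g' hg' hne
      simp only [Prod.mk.injEq] at h
      rw [hKab] at hk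
      simp only [mem_insert, mem_singleton] at hk
      rcases hk with rfl | rfl
      · exact hkne h.1
      · exact hkne h.2
    have h3 : (E.image fun g => (g a, g b)) ⊆ ({a₁, a₂} : Finset V) ×ˢ ({b₁, b₂} : Finset V) := by
      intro p hp
      obtain ⟨g, hg, rfl⟩ := mem_image.1 hp
      simp only [mem_product, mem_insert, mem_singleton]
      exact ⟨hA _ (H.side_eq g hg a), hB _ (H.side_eq g hg b)⟩
    have h4 := card_le_card h3
    rw [h2, card_product] at h4
    have h5 : ({a₁, a₂} : Finset V).card ≤ 2 := card_le_two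
    have h6 : ({b₁, b₂} : Finset V).card ≤ 2 := card_le_two
    have h7 : ({a₁, a₂} : Finset V).card * ({b₁, b₂} : Finset V).card ≤ 2 * 2 :=
      Nat.mul_le_mul h5 h6
    omega
  by_cases h2 : ∃ g ∈ E, ∃ g' ∈ E, ∃ i, g i ≠ g' i ∧ ∀ k ∈ K, k ≠ i → g k = g' k
  · obtain ⟨g, hg, g', hg', i, hi, hag⟩ := h2
    refine ⟨_, nt_of_agree H hg hg' hi fun k hki hk => hag k ((hKm k).2 hk) hki, ?_⟩
    have h2 := card_two hi
    have h3 : K.erase i ⊆ agree g g' := fun k hk =>
      mem_agree.2 (hag k (mem_erase.1 hk).2 (mem_erase.1 hk).1)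
    have h4 := card_le_card h3
    have h5 : K.card - 1 ≤ (K.erase i).card := pred_card_le_card_erase
    have h6 : 2 ≤ K.card := by
      have : ({a, b} : Finset (Fin r)) ⊆ K := by
        intro k hk
        simp only [mem_insert, mem_singleton] at hk
        rcases hk with rfl | rfl
        · exact haK
        · exact hbK
      have h7 := card_le_card this
      rwa [card_pair hab] at h7
    omega
  · push Not at h2
    obtain ⟨C, hC, hCc⟩ := nt_case2 H ⟨a, haK⟩ (fun k hk => (hKm k).1 hk)
      (fun g hg g' hg' hne => by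
        obtain ⟨k, hk, hkne⟩ := h1 g hg g' hg' hne
        obtain ⟨l, hl, hlk, hlne⟩ := h2 g hg g' hg' k hkne
        exact ⟨k, hk, l, hl, hlk.symm, hkne, hlne⟩) hC₀
    exact ⟨C, hC, by omega⟩

/-- The bound `2 r - 4` for `r ≥ 5`. -/
theorem bound_five (hr : 5 ≤ r) (H : Hyp side E) {C₀ : Finset V} (hC₀ : NT side E C₀)
    (hfin : Finite V) : ∃ C, NT side E C ∧ C.card ≤ 2 * r - 4 := by
  classical
  have := Fintype.ofFinite V
  by_cases h : ∃ a b, a ≠ b ∧ ¬ Big side a ∧ ¬ Big side b
  · obtain ⟨a, b, hab, ha, hb⟩ := h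
    exact nt_two_small (by omega) H hC₀ hab ha hb
  push Not at h
  by_contra hsmall
  by_cases hall : ∀ k, Big side k
  · -- all sides are big
    have hi : ∃ i j : Fin r, i ≠ j := by
      have : Nontrivial (Fin r) := Fin.nontrivial_iff_two_le.2 (by omega)
      exact exists_pair_ne _
    obtain ⟨i, j, hij⟩ := hi
    obtain ⟨v, hv⟩ := H.ne j
    obtain ⟨G1, -⟩ := nt_grid (by omega) H j (fun k _ => hall k) hsmall
    obtain ⟨S, hS, hSc⟩ := G1 v hv i hij
    exact hsmall (nt_grid_cover hr H i (fun k _ => hall k) ⟨S, hS, hSc.le⟩)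
  · push Not at hall
    obtain ⟨i, hi⟩ := hall
    obtain ⟨a, b, hab⟩ := not_big hi
    refine hsmall (nt_grid_cover hr H i (fun k hk => ?_)
      ⟨univ.filter fun v => side v = i, fun v => by simp, ?_⟩)
    · by_contra hk'
      exact hk' (h i k (Ne.symm hk) hi)
    · have h1 : (univ.filter fun v => side v = i) ⊆ ({a, b} : Finset V) := by
        intro v hv
        simp only [mem_filter, mem_univ, true_and] at hv
        simp only [mem_insert, mem_singleton]
        exact hab v hv
      have h2 := (card_le_card h1).trans card_le_two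
      omega

/-- The bound `2 r - 3 = 5` for `r = 4`. -/
theorem bound_four (hr : r = 4) (H : Hyp side E) {C₀ : Finset V} (hC₀ : NT side E C₀) :
    ∃ C, NT side E C ∧ C.card ≤ 5 := by
  classical
  by_cases h : ∃ a b, a ≠ b ∧ ¬ Big side a ∧ ¬ Big side b
  · obtain ⟨a, b, hab, ha, hb⟩ := h
    obtain ⟨C, hC, hCc⟩ := nt_two_small (by omega) H hC₀ hab ha hb
    exact ⟨C, hC, by omega⟩
  push Not at h
  -- choose `i` such that all other sides are big
  obtain ⟨i, hi⟩ : ∃ i, ∀ k, k ≠ i → Big side k := by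
    by_cases hall : ∀ k, Big side k
    · exact ⟨⟨0, by omega⟩, fun k _ => hall k⟩
    · push Not at hall
      obtain ⟨i, hi⟩ := hall
      refine ⟨i, fun k hk => ?_⟩
      by_contra hk'
      exact hk' (h i k (Ne.symm hk) hi)
  obtain ⟨u, hu⟩ := H.ne i
  obtain ⟨u', hu', huu'⟩ := H.two u
  obtain ⟨g, hg, hgu⟩ := H.mem u
  obtain ⟨g', hg', hgu'⟩ := H.mem u'
  rw [hu] at hgu hu'
  rw [hu'] at hgu'
  have hne : g i ≠ g' i := by
    rw [hgu, hgu']
    exact huu'.symm
  refine ⟨_, nt_two H hg hg' hne (fun k hk => hi k hk _ _), ?_⟩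
  have h2 := card_two hne
  have h3 : 0 < (agree g g').card := by
    obtain ⟨j, hj⟩ := H.inter g hg g' hg'
    exact card_pos.2 ⟨j, mem_agree.2 hj⟩
  omega

end Pool.Agent.Lib.MP_2c613a_co
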